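import Pool.Agent.H.MP_1611f1_gt.PZ.Pl
import Pool.Agent.H.MP_1611f1_gt.TW.Sq
import Pool.Agent.H.MP_1611f1_gt.BR.NCov

/-!
Leaf curves in a turning frame.
-/

namespace Pool.Agent.H.MP_1611f1_gt.PZ

open Topology Set Filter
open Pool.Agent.H.MP_1611f1_gt.BR.U (Ci)
open Pool.Agent.H.MP_1611f1_gt.TW (sq)
open Pool.Agent.H.MP_1611f1_gt.LG (Cylinder LeafCurve)

/-- the rotation by `A θ`, as a function of the point `θ` of the circle -/
noncomputable def RR (A : ℝ → ℝ) (θ : Ci) (v : ℝ × ℝ) : ℝ × ℝ := rotC (A (BR.U.cl θ)) v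

theorem Lf_int {A : ℝ → ℝ} {k : ℤ} (hA : ∀ θ, A (θ + 1) = A θ + 2 * Real.pi * k) (θ : ℝ)
    (n : ℤ) : A (θ + n) = A θ + n * (2 * Real.pi * k) := by
  induction n using Int.induction_on with
  | zero => simp
  | succ n ih =>
    have h := hA (θ + n)
    push_cast at ih ⊢
    rw [← add_assoc, h, ih]
    ring
  | pred n ih =>
    have h := hA (θ + (-n - 1))
    have e : θ + (-n - 1) + 1 = θ + -(n : ℝ) := by ring
    rw [e] at h
    push_cast at ih ⊢
    rw [ih] at h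
    linarith

theorem Lf_rot (α : ℝ) (n : ℤ) (v : ℝ × ℝ) : rotC (α + n * (2 * Real.pi)) v = rotC α v := by
  unfold rotC
  rw [Real.cos_add_int_mul_two_pi, Real.sin_add_int_mul_two_pi]

theorem Lf_surj : Function.Surjective (fun x : ℝ => (x : Ci)) := fun u => ⟨BR.U.cl u, BR.U.coe_cl u⟩

theorem Lf_quot : IsQuotientMap (fun x : ℝ => (x : Ci)) :=
  BR.U.NCov_coe_loc.isOpenMap.isQuotientMap BR.U.NCov_coe_loc.continuous Lf_surj

theorem Lf_quot2 : IsQuotientMap (Prod.map (fun x : ℝ => (x : Ci)) (id : ℝ × ℝ → ℝ × ℝ)) :=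
  (BR.U.NCov_coe_loc.isOpenMap.prodMap IsOpenMap.id).isQuotientMap
    (BR.U.NCov_coe_loc.continuous.prodMap continuous_id)
    (Lf_surj.prodMap Function.surjective_id)

section

variable {A : ℝ → ℝ} {k : ℤ}

/-- PROOF: `θ - BR.U.cl θ` is an integer (`BR.U.coe_cl`), `A (θ + n) = A θ + 2 π k n` by induction, and `rotC` has the period `2 π`. -/
theorem RR_eq (hA : ∀ θ, A (θ + 1) = A θ + 2 * Real.pi * k) (θ : ℝ) (v : ℝ × ℝ) :
    RR A (θ : Ci) v = rotC (A θ) v := by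
  have h := BR.U.coe_cl (θ : Ci)
  have h2 : ((BR.U.cl (θ : Ci) - θ : ℝ) : Ci) = 0 := by
    rw [AddCircle.coe_sub, h, sub_self]
  obtain ⟨n, hn⟩ := (AddCircle.coe_eq_zero_iff (1 : ℝ)).1 h2
  rw [zsmul_eq_mul, mul_one] at hn
  have h3 : BR.U.cl (θ : Ci) = θ + n := by linarith
  unfold RR
  rw [h3, Lf_int hA]
  have h4 : (n : ℝ) * (2 * Real.pi * k) = ((n * k : ℤ) : ℝ) * (2 * Real.pi) := by
    push_cast
    ring
  rw [h4, Lf_rot]

/-- PROOF: `(θ, v) ↦ ((θ : Ci), v)` is an open surjective continuous map (`BR.U.NCov_coe_loc.isOpenMap.prodMap`), so a quotient map; `RR_eq`, `rotC_cont`. -/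
theorem RR_cont (hc : Continuous A) (hA : ∀ θ, A (θ + 1) = A θ + 2 * Real.pi * k) :
    Continuous fun p : Ci × (ℝ × ℝ) => RR A p.1 p.2 := by
  rw [Lf_quot2.continuous_iff]
  have h : (fun p : Ci × (ℝ × ℝ) => RR A p.1 p.2) ∘
      (Prod.map (fun x : ℝ => (x : Ci)) (id : ℝ × ℝ → ℝ × ℝ)) =
      fun p : ℝ × (ℝ × ℝ) => rotC (A p.1) p.2 := by
    funext p
    exact RR_eq hA p.1 p.2
  rw [h]
  exact rotC_cont.comp ((hc.comp continuous_fst).prodMk continuous_snd)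

theorem RR_nrm (θ : Ci) (v : ℝ × ℝ) : (RR A θ v).1 ^ 2 + (RR A θ v).2 ^ 2 = v.1 ^ 2 + v.2 ^ 2 :=
  rotC_nrm _ _

end

/-- the part of the cylinder where the neighbourhoods are given -/
def box9 : Set Cylinder := {z | |z.2.1| < 9 ∧ |z.2.2| < 9}

theorem Lf_box : IsOpen box9 :=
  (isOpen_lt (continuous_snd.fst.abs) continuous_const).inter
    (isOpen_lt (continuous_snd.snd.abs) continuous_const)

section

variable {M : Type*} [TopologicalSpace M]

/-- the neighbourhood of a curve, in the frame which is turned by `A` -/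
noncomputable def turn (A : ℝ → ℝ) (N : Cylinder → M) (z : Cylinder) : M :=
  N (z.1, RR A z.1 (sq z.2.1, sq z.2.2))

/-- PROOF: `|sq| < 6` (`TW.sq_lt`) and `RR_nrm`: the coordinates are `< 9`, because `6² + 6² < 9²`. -/
theorem turn_mem (A : ℝ → ℝ) (z : Cylinder) :
    ((z.1, RR A z.1 (sq z.2.1, sq z.2.2)) : Cylinder) ∈ box9 := by
  have h1 := TW.sq_lt z.2.1
  have h2 := TW.sq_lt z.2.2
  have h3 : (RR A z.1 (sq z.2.1, sq z.2.2)).1 ^ 2 + (RR A z.1 (sq z.2.1, sq z.2.2)).2 ^ 2 =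
    (TW.sq z.2.1) ^ 2 + (TW.sq z.2.2) ^ 2 := RR_nrm z.1 _
  have h4 : (TW.sq z.2.1) ^ 2 < 36 := by
    rw [← sq_abs]
    nlinarith [abs_nonneg (TW.sq z.2.1)]
  have h5 : (TW.sq z.2.2) ^ 2 < 36 := by
    rw [← sq_abs]
    nlinarith [abs_nonneg (TW.sq z.2.2)]
  refine ⟨abs_lt_of_sq_lt_sq ?_ (by norm_num), abs_lt_of_sq_lt_sq ?_ (by norm_num)⟩
  · show (RR A z.1 (sq z.2.1, sq z.2.2)).1 ^ 2 < 9 ^ 2
    nlinarith [sq_nonneg (RR A z.1 (sq z.2.1, sq z.2.2)).2]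
  · show (RR A z.1 (sq z.2.1, sq z.2.2)).2 ^ 2 < 9 ^ 2
    nlinarith [sq_nonneg (RR A z.1 (sq z.2.1, sq z.2.2)).1]

/-- PROOF: `z ↦ (z.1, (sq z.2.1, sq z.2.2))` is an open embedding (`TW.mono_emb`, `prodMap`), `(θ, v) ↦ (θ, RR A θ v)` is a homeomorphism (inverse: the rotation by `-A`, `rotC_add`; `RR_cont`),
`turn_mem`, and `hN.comp` (`IsOpenEmbedding.of_comp` as in `TW.NC_emb`). -/
theorem turn_emb {A : ℝ → ℝ} {k : ℤ} (hc : Continuous A)
    (hA : ∀ θ, A (θ + 1) = A θ + 2 * Real.pi * k) {N : Cylinder → M}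
    (hN : IsOpenEmbedding (box9.domRestrict N)) : IsOpenEmbedding (turn A N) := by
  have hA' : ∀ θ, (fun x => -A x) (θ + 1) =
      (fun x => -A x) θ + 2 * Real.pi * ((-k : ℤ) : ℝ) := by
    intro θ
    show -A (θ + 1) = -A θ + 2 * Real.pi * ((-k : ℤ) : ℝ)
    rw [hA]
    push_cast
    ring
  have e1 : IsOpenEmbedding (fun z : Cylinder => ((z.1, (sq z.2.1, sq z.2.2)) : Cylinder)) :=
    (IsOpenEmbedding.id (X := Ci)).prodMap
      ((TW.mono_emb TW.sq_mono TW.sq_cont).prodMap (TW.mono_emb TW.sq_mono TW.sq_cont))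
  let P : Cylinder ≃ₜ Cylinder :=
    { toFun := fun z => (z.1, RR A z.1 z.2)
      invFun := fun z => (z.1, RR (fun x => -A x) z.1 z.2)
      left_inv := fun z => by
        refine Prod.ext rfl ?_
        show rotC (-A (BR.U.cl z.1)) (rotC (A (BR.U.cl z.1)) z.2) = z.2
        rw [rotC_add, neg_add_cancel, rotC_zero]
      right_inv := fun z => by
        refine Prod.ext rfl ?_
        show rotC (A (BR.U.cl z.1)) (rotC (-A (BR.U.cl z.1)) z.2) = z.2
        rw [rotC_add, add_neg_cancel, rotC_zero]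
      continuous_toFun := continuous_fst.prodMk (RR_cont hc hA)
      continuous_invFun := continuous_fst.prodMk (RR_cont hc.neg hA') }
  have e3 : IsOpenEmbedding (fun z : Cylinder =>
      ((z.1, RR A z.1 (sq z.2.1, sq z.2.2)) : Cylinder)) :=
    P.isOpenEmbedding.comp e1
  have e4 : IsOpenEmbedding (fun z : Cylinder => (⟨_, turn_mem A z⟩ : box9)) :=
    IsOpenEmbedding.of_comp _ Lf_box.isOpenEmbedding_subtypeVal e3
  exact hN.comp e4

/-- PROOF: unfold `turn`, `sq_id` (the coordinates of `rotC _ v` are `≤ 5`), `RR_eq`, `rotC_add`, `rotC_zero`. -/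
theorem turn_rotC {A : ℝ → ℝ} {k : ℤ} (hA : ∀ θ, A (θ + 1) = A θ + 2 * Real.pi * k)
    (N : Cylinder → M) (θ : ℝ) {v : ℝ × ℝ} (hv : v.1 ^ 2 + v.2 ^ 2 < 4) :
    turn A N ((θ : Ci), rotC (-A θ) v) = N ((θ : Ci), v) := by
  have h := rotC_nrm (-A θ) v
  have h1 : |(rotC (-A θ) v).1| ≤ 5 :=
    abs_le_of_sq_le_sq (by nlinarith [sq_nonneg (rotC (-A θ) v).2]) (by norm_num)
  have h2 : |(rotC (-A θ) v).2| ≤ 5 :=
    abs_le_of_sq_le_sq (by nlinarith [sq_nonneg (rotC (-A θ) v).1]) (by norm_num)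
  unfold turn
  simp only
  rw [TW.sq_id h1, TW.sq_id h2, RR_eq hA, Prod.mk.eta, rotC_add, add_neg_cancel, rotC_zero]

end

/-- PROOF: `q θ = 2πk (cl θ) - A (cl θ)`; the function `2πkθ - A θ` has the period `1`; continuity by the quotient map as in `RR_cont`. -/
theorem exists_q {A : ℝ → ℝ} {k : ℤ} (hc : Continuous A)
    (hA : ∀ θ, A (θ + 1) = A θ + 2 * Real.pi * k) : ∃ q : Ci → ℝ, Continuous q ∧
    ∀ θ : ℝ, q (θ : Ci) = 2 * Real.pi * k * θ - A θ := by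
  have hp : Function.Periodic (fun θ : ℝ => 2 * Real.pi * k * θ - A θ) (1 : ℝ) := by
    intro θ
    show 2 * Real.pi * k * (θ + 1) - A (θ + 1) = 2 * Real.pi * k * θ - A θ
    rw [hA]
    ring
  refine ⟨hp.lift, ?_, fun θ => hp.lift_coe θ⟩
  rw [Lf_quot.continuous_iff]
  exact (continuous_const.mul continuous_id).sub hc

end Pool.Agent.H.MP_1611f1_gt.PZ
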