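import Pool.Agent.H.MP_1611f1_gt.PZ.Sh

/-!
A homeomorphism of `S¹ × ℝ²` with compact support, which rotates a disc and moves it.
-/

namespace Pool.Agent.H.MP_1611f1_gt.PZ

open Topology Set Filter
open Pool.Agent.H.MP_1611f1_gt.BR.U (Ci)
open Pool.Agent.H.MP_1611f1_gt.LG (Cylinder)

/-- the rotation of the plane -/
noncomputable def rotC (α : ℝ) (v : ℝ × ℝ) : ℝ × ℝ :=
  (v.1 * Real.cos α - v.2 * Real.sin α, v.1 * Real.sin α + v.2 * Real.cos α)

theorem rotC_add (α β : ℝ) (v : ℝ × ℝ) : rotC α (rotC β v) = rotC (α + β) v := by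
  unfold rotC
  rw [Real.cos_add, Real.sin_add]
  ext <;> simp only <;> ring

theorem rotC_zero (v : ℝ × ℝ) : rotC 0 v = v := by
  unfold rotC
  simp

theorem rotC_nrm (α : ℝ) (v : ℝ × ℝ) :
    (rotC α v).1 ^ 2 + (rotC α v).2 ^ 2 = v.1 ^ 2 + v.2 ^ 2 := by
  have h := Real.sin_sq_add_cos_sq α
  unfold rotC
  simp only
  nlinarith [h]

theorem rotC_cont : Continuous fun p : ℝ × (ℝ × ℝ) => rotC p.1 p.2 := by
  unfold rotC
  fun_prop

/-- `1` for `|v| ≤ 2`, `0` for `3 ≤ |v|` -/
noncomputable def eta (v : ℝ × ℝ) : ℝ := max 0 (min 1 ((9 - (v.1 ^ 2 + v.2 ^ 2)) / 5))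

/-- the rotation by `-q`, cut off at the radius `3` -/
noncomputable def G1 (q : ℝ) (v : ℝ × ℝ) : ℝ × ℝ := rotC (-(q * eta v)) v

theorem eta_rotC (α : ℝ) (v : ℝ × ℝ) : eta (rotC α v) = eta v := by
  unfold eta
  rw [rotC_nrm]

theorem G1_inv (q : ℝ) (v : ℝ × ℝ) : G1 (-q) (G1 q v) = v := by
  unfold G1
  rw [eta_rotC, rotC_add]
  have h : -(-q * eta v) + -(q * eta v) = 0 := by ring
  rw [h, rotC_zero]

theorem G1_cont : Continuous fun p : ℝ × (ℝ × ℝ) => G1 p.1 p.2 := by
  have h : Continuous eta := by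
    unfold eta
    fun_prop
  exact rotC_cont.comp (((continuous_fst.mul (h.comp continuous_snd)).neg).prodMk continuous_snd)

/-- `1` for `|u| ≤ 2`, `0` for `3 ≤ |u|` -/
noncomputable def la (u : ℝ) : ℝ := max 0 (min 1 (3 - |u|))

/-- `1` for `|s| ≤ 2`, `0` for `8 ≤ |s|` -/
noncomputable def be (s : ℝ) : ℝ := max 0 (min 1 ((8 - |s|) / 6))

/-- the translation by `-4` in the direction `s`, cut off -/
noncomputable def G2 (v : ℝ × ℝ) : ℝ × ℝ := (v.1, v.2 - 4 * la v.1 * be v.2)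

theorem Pl_clamp (a b : ℝ) : |max 0 (min 1 a) - max 0 (min 1 b)| ≤ |a - b| := by
  have h1 : |max 0 (min 1 a) - max 0 (min 1 b)| ≤ |min 1 a - min 1 b| := by
    have := abs_max_sub_max_le_max 0 (min 1 a) 0 (min 1 b)
    rw [sub_self, abs_zero, max_eq_right (abs_nonneg (min 1 a - min 1 b))] at this
    exact this
  have h2 : |min 1 a - min 1 b| ≤ |a - b| := by
    have := abs_min_sub_min_le_max 1 a 1 b
    rw [sub_self, abs_zero, max_eq_right (abs_nonneg (a - b))] at this
    exact this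
  exact h1.trans h2

theorem Pl_la_lip (u u' : ℝ) : |la u - la u'| ≤ |u - u'| := by
  refine (Pl_clamp _ _).trans ?_
  have h : 3 - |u| - (3 - |u'|) = -(|u| - |u'|) := by ring
  rw [h, abs_neg]
  exact abs_abs_sub_abs_le u u'

theorem Pl_be_lip (s s' : ℝ) : |be s - be s'| ≤ |s - s'| / 6 := by
  refine (Pl_clamp _ _).trans ?_
  have h : (8 - |s|) / 6 - (8 - |s'|) / 6 = -(|s| - |s'|) / 6 := by ring
  rw [h, abs_div, abs_neg, abs_of_pos (by norm_num : (0 : ℝ) < 6)]
  exact div_le_div_of_nonneg_right (abs_abs_sub_abs_le s s') (by norm_num)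

theorem Pl_la_nonneg (u : ℝ) : 0 ≤ la u := le_max_left _ _

theorem Pl_la_le (u : ℝ) : la u ≤ 1 := max_le zero_le_one (min_le_left _ _)

theorem Pl_be_nonneg (s : ℝ) : 0 ≤ be s := le_max_left _ _

theorem Pl_be_le (s : ℝ) : be s ≤ 1 := max_le zero_le_one (min_le_left _ _)

theorem Pl_la_cont : Continuous la := by
  unfold la
  fun_prop

theorem Pl_be_cont : Continuous be := by
  unfold be
  fun_prop

theorem Pl_G2_cont : Continuous G2 := by
  unfold G2
  exact continuous_fst.prodMk (continuous_snd.sub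
    ((continuous_const.mul (Pl_la_cont.comp continuous_fst)).mul (Pl_be_cont.comp continuous_snd)))

theorem Pl_bound (u u' s s' : ℝ) :
    |s - s'| ≤ 3 * |(s - 4 * la u * be s) - (s' - 4 * la u' * be s')| + 12 * |u - u'| := by
  have h1 := Pl_la_lip u u'
  have h2 := Pl_be_lip s s'
  have h3 : s - s' = ((s - 4 * la u * be s) - (s' - 4 * la u' * be s')) +
      (4 * la u * (be s - be s') + 4 * be s' * (la u - la u')) := by ring
  have h4 : |4 * la u * (be s - be s')| ≤ 4 * (|s - s'| / 6) := by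
    rw [abs_mul, abs_mul, abs_of_pos (by norm_num : (0 : ℝ) < 4), abs_of_nonneg (Pl_la_nonneg u)]
    have h5 : 4 * la u ≤ 4 := by linarith [Pl_la_le u]
    exact mul_le_mul h5 h2 (abs_nonneg _) (by norm_num)
  have h6 : |4 * be s' * (la u - la u')| ≤ 4 * |u - u'| := by
    rw [abs_mul, abs_mul, abs_of_pos (by norm_num : (0 : ℝ) < 4), abs_of_nonneg (Pl_be_nonneg s')]
    have h5 : 4 * be s' ≤ 4 := by linarith [Pl_be_le s']
    exact mul_le_mul h5 h1 (abs_nonneg _) (by norm_num)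
  have h7 := abs_add_le ((s - 4 * la u * be s) - (s' - 4 * la u' * be s'))
    (4 * la u * (be s - be s') + 4 * be s' * (la u - la u'))
  rw [← h3] at h7
  have h8 := abs_add_le (4 * la u * (be s - be s')) (4 * be s' * (la u - la u'))
  linarith

theorem Pl_anti : AntilipschitzWith 15 G2 := by
  refine AntilipschitzWith.of_le_mul_dist fun v w => ?_
  have h1 := Pl_bound v.1 w.1 v.2 w.2
  have h2 : |v.1 - w.1| ≤ dist (G2 v) (G2 w) := by
    have := le_max_left (dist (G2 v).1 (G2 w).1) (dist (G2 v).2 (G2 w).2)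
    rw [Prod.dist_eq]
    rw [Real.dist_eq] at this
    exact this
  have h3 : |(v.2 - 4 * la v.1 * be v.2) - (w.2 - 4 * la w.1 * be w.2)| ≤
      dist (G2 v) (G2 w) := by
    have := le_max_right (dist (G2 v).1 (G2 w).1) (dist (G2 v).2 (G2 w).2)
    rw [Prod.dist_eq]
    rw [Real.dist_eq (G2 v).2] at this
    exact this
  have h4 : ((15 : NNReal) : ℝ) = 15 := by norm_num
  have h5 : 0 ≤ dist (G2 v) (G2 w) := dist_nonneg
  rw [h4, Prod.dist_eq, Real.dist_eq, Real.dist_eq]
  exact max_le (by linarith) (by linarith)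

theorem Pl_surj : Function.Surjective G2 := by
  rintro ⟨u, t⟩
  have hc : Continuous fun s : ℝ => s - 4 * la u * be s :=
    continuous_id.sub (continuous_const.mul Pl_be_cont)
  have h0 : ∀ s, 0 ≤ 4 * la u * be s := fun s =>
    mul_nonneg (mul_nonneg (by norm_num) (Pl_la_nonneg u)) (Pl_be_nonneg s)
  have h4 : ∀ s, 4 * la u * be s ≤ 4 := fun s => by
    have h5 : 4 * la u ≤ 4 := by linarith [Pl_la_le u]
    have := mul_le_mul h5 (Pl_be_le s) (Pl_be_nonneg s) (by norm_num : (0 : ℝ) ≤ 4)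
    linarith
  have ht : Tendsto (fun s : ℝ => s - 4 * la u * be s) atTop atTop := by
    refine tendsto_atTop_mono (fun s => ?_) (tendsto_atTop_add_const_right _ (-4) tendsto_id)
    show s + -4 ≤ s - 4 * la u * be s
    linarith [h4 s]
  have hb : Tendsto (fun s : ℝ => s - 4 * la u * be s) atBot atBot := by
    refine tendsto_atBot_mono (fun s => ?_) tendsto_id
    show s - 4 * la u * be s ≤ s
    linarith [h0 s]
  obtain ⟨s, hs⟩ := hc.surjective ht hb t
  exact ⟨(u, s), Prod.ext rfl hs⟩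

/-- PROOF: `be` is Lipschitz with the constant `1/6` and `0 ≤ la ≤ 1`, so `s ↦ s - 4 la be s` is strictly increasing (`≥ (s' - s) / 3`);
it tends to `± ∞` (`|be| ≤ 1`), so it is surjective (intermediate value theorem: `Continuous.surjective`). The inverse is continuous: for `(u₀, t₀)`, `s₀` the preimage and `ε > 0` we have
`m u₀ (s₀ - ε) < t₀ < m u₀ (s₀ + ε)`, this holds for all `(u, t)` near `(u₀, t₀)`, so the preimage of `t` is in `(s₀ - ε, s₀ + ε)`. -/
theorem exists_G2 : ∃ h : (ℝ × ℝ) ≃ₜ (ℝ × ℝ), ∀ v, h v = G2 v := by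
  obtain ⟨g, hg⟩ := Pl_surj.hasRightInverse
  have hl : LipschitzWith 15 g := Pl_anti.to_rightInverse hg
  exact ⟨{ toFun := G2
           invFun := g
           left_inv := fun v => Pl_anti.injective (hg (G2 v))
           right_inv := hg
           continuous_toFun := Pl_G2_cont
           continuous_invFun := hl.continuous }, fun v => rfl⟩

theorem G2_eq {v : ℝ × ℝ} (h : v.1 ^ 2 + v.2 ^ 2 ≤ 4) : G2 v = (v.1, v.2 - 4) := by
  have h1 : |v.1| ≤ 2 := abs_le_of_sq_le_sq (by nlinarith [sq_nonneg v.2]) (by norm_num)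
  have h2 : |v.2| ≤ 2 := abs_le_of_sq_le_sq (by nlinarith [sq_nonneg v.1]) (by norm_num)
  have h3 : la v.1 = 1 := by
    unfold la
    rw [min_eq_left (by linarith), max_eq_right zero_le_one]
  have h4 : be v.2 = 1 := by
    unfold be
    rw [min_eq_left (by linarith), max_eq_right zero_le_one]
  unfold G2
  rw [h3, h4, mul_one, mul_one]

theorem G2_id {v : ℝ × ℝ} (h : 3 ≤ |v.1| ∨ 8 ≤ |v.2|) : G2 v = v := by
  have h0 : la v.1 * be v.2 = 0 := by
    rcases h with h | h
    · have h3 : la v.1 = 0 := by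
        unfold la
        exact max_eq_left ((min_le_right _ _).trans (by linarith))
      rw [h3, zero_mul]
    · have h4 : be v.2 = 0 := by
        unfold be
        exact max_eq_left ((min_le_right _ _).trans (by linarith))
      rw [h4, mul_zero]
  unfold G2
  rw [mul_assoc, h0, mul_zero, sub_zero]

theorem G1_eq {q : ℝ} {v : ℝ × ℝ} (h : v.1 ^ 2 + v.2 ^ 2 ≤ 4) : G1 q v = rotC (-q) v := by
  have h1 : eta v = 1 := by
    unfold eta
    rw [min_eq_left (by linarith), max_eq_right zero_le_one]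
  unfold G1
  rw [h1, mul_one]

theorem G1_id {q : ℝ} {v : ℝ × ℝ} (h : 9 ≤ v.1 ^ 2 + v.2 ^ 2) : G1 q v = v := by
  have h1 : eta v = 0 := by
    unfold eta
    exact max_eq_left ((min_le_right _ _).trans (by linarith))
  unfold G1
  rw [h1, mul_zero, neg_zero, rotC_zero]

/-- The homeomorphism of `S¹ × ℝ²`: `(θ, v) ↦ (θ, G2 (G1 (q θ) v))`. PROOF: `exists_G2`, `G1_inv`, `G1_cont`. -/
theorem exists_GG {q : Ci → ℝ} (hq : Continuous q) : ∃ h : Cylinder ≃ₜ Cylinder,
    (∀ θ v, h (θ, v) = (θ, G2 (G1 (q θ) v))) ∧ ∀ z : Cylinder, 9 ≤ |z.2.1| ∨ 9 ≤ |z.2.2| → h z = z := by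
  obtain ⟨g, hg⟩ := exists_G2
  have hc1 : Continuous fun z : Cylinder => G1 (q z.1) z.2 :=
    G1_cont.comp ((hq.comp continuous_fst).prodMk continuous_snd)
  have hc2 : Continuous fun z : Cylinder => G1 (-(q z.1)) (g.symm z.2) :=
    G1_cont.comp ((hq.comp continuous_fst).neg.prodMk (g.symm.continuous.comp continuous_snd))
  refine ⟨{ toFun := fun z => (z.1, g (G1 (q z.1) z.2))
            invFun := fun z => (z.1, G1 (-(q z.1)) (g.symm z.2))
            left_inv := fun z => ?_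
            right_inv := fun z => ?_
            continuous_toFun := continuous_fst.prodMk (g.continuous.comp hc1)
            continuous_invFun := continuous_fst.prodMk hc2 }, ?_, ?_⟩
  · show (z.1, G1 (-(q z.1)) (g.symm (g (G1 (q z.1) z.2)))) = z
    rw [g.symm_apply_apply, G1_inv]
  · show (z.1, g (G1 (q z.1) (G1 (-(q z.1)) (g.symm z.2)))) = z
    have h := G1_inv (-(q z.1)) (g.symm z.2)
    rw [neg_neg] at h
    rw [h, g.apply_symm_apply]
  · intro θ v
    show (θ, g (G1 (q θ) v)) = (θ, G2 (G1 (q θ) v))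
    rw [hg]
  · intro z hz
    show (z.1, g (G1 (q z.1) z.2)) = z
    have h1 : 9 ≤ z.2.1 ^ 2 + z.2.2 ^ 2 := by
      rcases hz with h | h
      · nlinarith [sq_abs z.2.1, sq_nonneg z.2.2, abs_nonneg z.2.1]
      · nlinarith [sq_abs z.2.2, sq_nonneg z.2.1, abs_nonneg z.2.2]
    rw [G1_id h1, hg, G2_id]
    rcases hz with h | h
    · exact Or.inl (by linarith)
    · exact Or.inr (by linarith)

end Pool.Agent.H.MP_1611f1_gt.PZ
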