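import Pool.Agent.H.MP_1611f1_gt.TW.FF
import Pool.Agent.H.MP_1611f1_gt.PZ.Pl

/-!
The angle of the turning frame.
-/

namespace Pool.Agent.H.MP_1611f1_gt.PZ

open Topology Set Filter
open Pool.Agent.H.MP_1611f1_gt.TW (chi chi_zero chi_one chi_cont)

/-- a staircase with slopes: `m` on `[m + 1/12, m + 11/12]`, rising by `1` around every integer -/
noncomputable def st (x : ℝ) : ℝ := ⌊x + 1 / 2⌋ - 1 + chi (12 * (x - ⌊x + 1 / 2⌋))

theorem st_near {x : ℝ} {m : ℤ} (h : |x - m| ≤ 1 / 2) : st x = m - 1 + chi (12 * (x - m)) := by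
  have h1 := abs_le.1 h
  rcases h1.2.lt_or_eq with h2 | h2
  · have e : ⌊x + 1 / 2⌋ = m := by
      rw [Int.floor_eq_iff]
      constructor <;> linarith [h1.1]
    unfold st
    rw [e]
  · have e : ⌊x + 1 / 2⌋ = m + 1 := by
      rw [Int.floor_eq_iff]
      push_cast
      constructor <;> linarith [h1.1]
    unfold st
    rw [e, h2]
    push_cast
    rw [chi_zero (by linarith), chi_one (by norm_num)]
    ring

theorem st_flat {x : ℝ} {m : ℤ} (h1 : m + 1 / 12 ≤ x) (h2 : x ≤ m + 11 / 12) : st x = m := by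
  rcases le_total x (m + 1 / 2) with h | h
  · rw [st_near (m := m) (abs_le.2 ⟨by linarith, by linarith⟩), chi_one (by linarith)]
    ring
  · have h3 : |x - ((m + 1 : ℤ) : ℝ)| ≤ 1 / 2 := by
      push_cast
      exact abs_le.2 ⟨by linarith, by linarith⟩
    rw [st_near h3, chi_zero (by push_cast; linarith)]
    push_cast
    ring

theorem st_add (x : ℝ) : st (x + 1) = st x + 1 := by
  have e : ⌊x + 1 + 1 / 2⌋ = ⌊x + 1 / 2⌋ + 1 := by
    rw [show x + 1 + 1 / 2 = (x + 1 / 2) + 1 by ring, Int.floor_add_one]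
  unfold st
  rw [e]
  push_cast
  rw [show x + 1 - ((⌊x + 1 / 2⌋ : ℝ) + 1) = x - ⌊x + 1 / 2⌋ by ring]
  ring

theorem st_cont : Continuous st := by
  rw [continuous_iff_continuousAt]
  intro x
  have h1 := Int.floor_le (x + 1 / 2)
  have h2 := Int.lt_floor_add_one (x + 1 / 2)
  set m := ⌊x + 1 / 2⌋ with hm
  rcases h1.lt_or_eq with h3 | h3
  · have hev : ∀ᶠ y in 𝓝 x, (m - 1 + chi (12 * (y - m)) : ℝ) = st y := by
      have hO : Ioo ((m : ℝ) - 1 / 2) (m + 1 / 2) ∈ 𝓝 x :=
        Ioo_mem_nhds (by linarith) (by linarith)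
      filter_upwards [hO] with y hy
      exact (st_near (abs_le.2 ⟨by linarith [hy.1], by linarith [hy.2]⟩)).symm
    refine ContinuousAt.congr ?_ hev
    exact (continuous_const.add (chi_cont.comp (by fun_prop))).continuousAt
  · have hev : ∀ᶠ y in 𝓝 x, (m - 1 : ℝ) = st y := by
      have hO : Ioo ((m : ℝ) - 11 / 12) (m - 1 / 12) ∈ 𝓝 x :=
        Ioo_mem_nhds (by linarith) (by linarith)
      filter_upwards [hO] with y hy
      have := st_flat (x := y) (m := m - 1) (by push_cast; linarith [hy.1])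
        (by push_cast; linarith [hy.2])
      rw [this]
      push_cast
      ring
    exact continuousAt_const.congr hev

/-- the angle of the frame of a leaf curve with `2 k` crossings; `c` is the constant for `k = 0` -/
noncomputable def ang (k : ℕ) (c : ℤ) (θ : ℝ) : ℝ := Real.pi * if k = 0 then (c : ℝ) else st (2 * k * θ)

theorem st_add_nat (x : ℝ) (n : ℕ) : st (x + n) = st x + n := by
  induction n with
  | zero => simp
  | succ n ih =>
    push_cast
    rw [← add_assoc, st_add, ih]
    ring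

theorem ang_add (k : ℕ) (c : ℤ) (θ : ℝ) : ang k c (θ + 1) = ang k c θ + 2 * Real.pi * (k : ℤ) := by
  unfold ang
  by_cases hk : k = 0
  · subst hk
    simp
  · rw [if_neg hk, if_neg hk]
    have h := st_add_nat (2 * k * θ) (2 * k)
    push_cast at h ⊢
    rw [show 2 * (k : ℝ) * (θ + 1) = 2 * k * θ + 2 * k by ring, h]
    ring

theorem ang_cont (k : ℕ) (c : ℤ) : Continuous (ang k c) := by
  unfold ang
  by_cases hk : k = 0
  · simp only [if_pos hk]
    exact continuous_const
  · simp only [if_neg hk]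
    exact continuous_const.mul (st_cont.comp (by fun_prop))

end Pool.Agent.H.MP_1611f1_gt.PZ
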