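import Pool.Agent.H.MP_1611f1_gt.PA.Defs
import Pool.Agent.H.MP_1611f1_gt.PZ.St
import Pool.Agent.H.MP_1611f1_gt.PZ.Leaf

/-!
The curves which are removed, as curves in the manifold `M₀` with boxes: definitions.
-/

namespace Pool.Agent.H.MP_1611f1_gt.PZ

open Topology Set Filter
open Pool.Agent.H.MP_1611f1_gt.BR.U (Ci)
open Pool.Agent.H.MP_1611f1_gt.TW (cov)
open Pool.Agent.H.MP_1611f1_gt.G (Ended)
open Pool.Agent.H.MP_1611f1_gt.LG (Cylinder)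
open Pool.Agent.H.MP_1611f1_gt.PA (PPar Str Boxes CX)

/-- `θ` is not near one of the `2 k` crossings -/
def Far (k : ℕ) (θ : ℝ) : Prop := 0 < k → ∀ m : ℤ, 1 / (24 * k : ℝ) < |θ - m / (2 * k)|

/-- the sign of `m` -/
def sgn (m : ℤ) : ℝ := if Even m then 1 else -1

/-- A leaf curve with `2 k` special crossings; `ph` are coordinates around it: `(θ, (u, s))`, the curve is `u = s = 0`. It
crosses the box `bx m` at `θ = m / (2 k)`, at `a = 1/2`, `t = 5/8`. The foliation `F₀` is given by `ψ (kap θ) (± s)` between the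
crossings. -/
structure Lf {M₀ : Type} [TopologicalSpace M₀] {A : Type} (B : Boxes M₀ A) (F₀ : LS.PreFol M₀)
    (ph : Cylinder → M₀) (k : ℕ) where
  emb : IsOpenEmbedding (box9.domRestrict ph)
  c : ℤ
  bx : ℤ → A
  σ : ℤ → ℝ
  σ_one : ∀ m, σ m = 1 ∨ σ m = -1
  ρ : ℝ
  ρ_pos : 0 < ρ
  ρ_le : ρ ≤ 1 / 288
  cross : 0 < k → ∀ (m : ℤ) (v u s : ℝ), |v| < 1 / (8 * k) → |u| < 9 → |s| < 9 →
    ph (((m / (2 * k) + v : ℝ) : Ci), (u, s)) = B.N (bx m) (cov (1 / 2 + sgn m * ρ * u,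
      -(sgn m * σ m) * (3 * k / 2) * v, 5 / 8 + σ m * ρ * s))
  out : ∀ (θ : ℝ) (v : ℝ × ℝ), |v.1| < 9 → |v.2| < 9 → Far k θ → ∀ i, ph ((θ : Ci), v) ∉ B.N i '' CX
  kap : ℝ → ℝ
  kap_cont : Continuous kap
  deg : ℤ
  deg_ne : deg ≠ 0
  kap_add : ∀ θ, kap (θ + 1) = kap θ + deg
  kap_cross : 0 < k → ∀ (m : ℤ) (v : ℝ), |v| < 1 / (8 * k) → kap (m / (2 * k) + v) = kap (m / (2 * k))
  ψ : ℝ → ℝ → ℝ
  ψ_cont : Continuous fun p : ℝ × ℝ => ψ p.1 p.2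
  ψ_mono : ∀ r, StrictMono (ψ r)
  ψ_zero : ∀ r, ψ r 0 = 0
  h₀ : ℝ ≃o ℝ
  ψ_add : ∀ r s, ψ (r + 1) s = h₀ (ψ r s)
  δ₁ : ℝ
  δ₁_pos : 0 < δ₁
  h_pos : ∀ z, 0 < z → z < δ₁ → z < h₀ z
  h_neg : ∀ z, -δ₁ < z → z < 0 → h₀ z < z
  germ : ∀ z : ℝ × (ℝ × ℝ), |z.2.1| < 9 → |z.2.2| < 9 → Far k z.1 → ∀ c' ∈ F₀.charts,
    ph ((z.1 : Ci), z.2) ∈ c'.source →
      OrdEq z (fun w => (c' (ph ((w.1 : Ci), w.2))).2)
        (fun w => ψ (kap w.1) (rotC (-ang k c w.1) w.2).2)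

/-- coordinates around the circle over the point `(1/4, l)` of a wall -/
noncomputable def wph {M₀ : Type} {A : Type} [TopologicalSpace M₀] (B : Boxes M₀ A) (i : A)
    (l ρ : ℝ) (z : Cylinder) : M₀ :=
  B.N i (((1 / 4 + ρ * z.2.2 : ℝ) : Ci), ((l + ρ * z.2.1 : ℝ) : Ci), z.1)

/-- the neighbourhood of radius `2` of the tube -/
def K8 : Set (Ci × Ci × Ci) := {z | ‖z.2.1‖ ≤ 1 / 8 ∧ ‖z.2.2‖ ≤ 1 / 8}

/-- The curves which are removed from `M₀`: the curves `e i` (the circles `b = t = 0` of the boxes), circles `j ∈ C` over points of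
the walls, and leaf curves. All solid tori are centred at the curves. -/
structure Cvs {M₀ : Type} [TopologicalSpace M₀] {A : Type} (B : Boxes M₀ A) (F₀ : LS.PreFol M₀)
    {J : Type} {old : J → Prop} (T₀ : Ended M₀ {j // old j})
    (Nb : {j // ¬ old j} → Cylinder → M₀) (e : A → {j // ¬ old j}) (C : Set {j // ¬ old j})
    (k : J → ℕ) where
  away : ∀ i j z, T₀.tor j z ∉ B.N i '' CX
  e_inj : Function.Injective e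
  e_notMem : ∀ i, e i ∉ C
  e_nbh : ∀ i z, Nb (e i) z =
    B.N i (z.1, ((z.2.1 / 16 : ℝ) : Ci), (((z.2.2 + 4) / 16 : ℝ) : Ci))
  k_old : ∀ j, old j → k j = 0
  k_e : ∀ i, k (e i).1 = 0
  k_C : ∀ j ∈ C, k j.1 = 0
  ph : {j // ¬ old j} → Cylinder → M₀
  nbh : ∀ j, (∀ i, j ≠ e i) → ∀ z : Cylinder, |z.2.1| ≤ 2 → |z.2.2 + 4| ≤ 2 →
    Nb j z = ph j (z.1, (z.2.1, z.2.2 + 4))
  ci : {j // ¬ old j} → A
  l : {j // ¬ old j} → ℝ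
  ρ : ℝ
  ρ_pos : 0 < ρ
  ρ_le : ρ ≤ 1 / 288
  l_mem : ∀ j ∈ C, 1 / 8 + 9 * ρ < l j ∧ l j < 1 / 4 - 9 * ρ
  C_ph : ∀ j ∈ C, ph j = wph B (ci j) (l j) ρ
  lf : ∀ j, (∀ i, j ≠ e i) → j ∉ C → Lf B F₀ (ph j) (k j.1)
  tube : ∀ j, (∀ i, j ≠ e i) → ∀ z ∈ box9, ∀ i, ph j z ∉ B.N i '' K8
  ph_away : ∀ j, (∀ i, j ≠ e i) → ∀ z ∈ box9, ∀ m w, ph j z ≠ T₀.tor m w
  ph_disj : ∀ j m, (∀ i, j ≠ e i) → (∀ i, m ≠ e i) → ∀ z ∈ box9, ∀ w ∈ box9, ph j z = ph m w → j = m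

end Pool.Agent.H.MP_1611f1_gt.PZ
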