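import Pool.Agent.H.MP_1611f1_gt.LG.Defs

/-!
Removing the curves in two steps: first the curves of a set `E`.
-/

namespace Pool.Agent.H.MP_1611f1_gt.PZ

open Topology Set Filter
open Pool.Agent.H.MP_1611f1_gt.G (Ended)
open Pool.Agent.H.MP_1611f1_gt.LG (Drilled Cylinder solidTorus)

/-- First only the solid tori of the curves in `E` are removed (`K` is their union). -/
theorem exists_DA {M : Type*} [TopologicalSpace M] {J : Type*} {T : Ended M J} {M₀ : Type*}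
    [TopologicalSpace M₀] {old : J → Prop} {T₀ : Ended M₀ {j // old j}}
    {Nb : {j // ¬ old j} → Cylinder → M₀} (D : Drilled T₀ Nb T) (E : J → Prop) {K : Set M₀}
    (hK : K = {x | ∃ k : {j // ¬ old j}, E k.1 ∧ x ∈ Nb k '' solidTorus}) (hKc : IsClosed K)
    (N1 : {j // ¬ (old j ∨ E j)} → Cylinder → {y : M₀ // y ∉ K})
    (h1 : ∀ (j : {j // ¬ (old j ∨ E j)}) (z : Cylinder), |z.2.1| ≤ 2 → |z.2.2 + 4| ≤ 2 →
      (N1 j z).1 = Nb ⟨j.1, fun h => j.2 (Or.inl h)⟩ z) :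
    ∃ T1 : Ended {y : M₀ // y ∉ K} {j // old j ∨ E j},
      (∀ j w, (T1.tor j w).1 = D.p (T.tor j.1 w)) ∧ Nonempty (Drilled T1 N1 T) := by
  have hnK : ∀ x, D.p x ∉ K := by
    intro x
    rw [hK]
    rintro ⟨k, -, hk⟩
    exact (D.range_iff (D.p x)).1 ⟨x, rfl⟩ k hk
  have hval : IsOpenEmbedding (Subtype.val : {y : M₀ // y ∉ K} → M₀) :=
    hKc.isOpen_compl.isOpenEmbedding_subtypeVal
  have hsmall : ∀ z : Cylinder, z ∈ solidTorus → |z.2.1| ≤ 2 ∧ |z.2.2 + 4| ≤ 2 := by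
    intro z hz
    have hz' : z.2.1 ^ 2 + (z.2.2 + 4) ^ 2 ≤ 1 := hz
    constructor
    · refine abs_le_of_sq_le_sq' ?_ (by norm_num) |> abs_le.2
      nlinarith [sq_nonneg (z.2.2 + 4)]
    · refine abs_le_of_sq_le_sq' ?_ (by norm_num) |> abs_le.2
      nlinarith [sq_nonneg z.2.1]
  refine ⟨⟨fun j w => ⟨D.p (T.tor j.1 w), hnK _⟩, fun j => ?_, fun i j z w h => ?_⟩,
    fun j w => rfl, ⟨⟨fun x => ⟨D.p x, hnK x⟩, ?_, fun x => ?_, fun j w => rfl, ?_⟩⟩⟩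
  · exact IsOpenEmbedding.of_comp _ hval (D.emb.comp (T.emb j.1))
  · have h2 : D.p (T.tor i.1 z) = D.p (T.tor j.1 w) := congrArg Subtype.val h
    exact Subtype.ext (T.disj _ _ _ _ (D.emb.injective h2))
  · exact IsOpenEmbedding.of_comp _ hval D.emb
  · have h2 : x ∈ range (fun y => (⟨D.p y, hnK y⟩ : {y : M₀ // y ∉ K})) ↔ x.1 ∈ range D.p := by
      constructor
      · rintro ⟨y, rfl⟩
        exact ⟨y, rfl⟩
      · rintro ⟨y, hy⟩
        exact ⟨y, Subtype.ext hy⟩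
    rw [h2, D.range_iff]
    constructor
    · rintro h k ⟨z, hz, hzx⟩
      obtain ⟨hz1, hz2⟩ := hsmall z hz
      refine h ⟨k.1, fun h => k.2 (Or.inl h)⟩ ⟨z, hz, ?_⟩
      rw [← h1 k z hz1 hz2, hzx]
    · rintro h k ⟨z, hz, hzx⟩
      by_cases hke : E k.1
      · have hxK : x.1 ∈ {x | ∃ k : {j // ¬ old j}, E k.1 ∧ x ∈ Nb k '' solidTorus} :=
          ⟨k, hke, z, hz, hzx⟩
        rw [← hK] at hxK
        exact x.2 hxK
      · obtain ⟨hz1, hz2⟩ := hsmall z hz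
        have hk' : ¬ (old k.1 ∨ E k.1) := fun h => h.elim k.2 hke
        refine h ⟨k.1, hk'⟩ ⟨z, hz, Subtype.ext ?_⟩
        rw [h1 ⟨k.1, hk'⟩ z hz1 hz2]
        exact hzx
  · intro k θ r t
    refine Subtype.ext ?_
    have hr1 : (0 : ℝ) < r := by linarith [r.2.1]
    have hr2 : (r : ℝ) < 2 := r.2.2
    have hb : ∀ c : ℝ, |c| ≤ 1 → |(r : ℝ) * c| ≤ 2 := by
      intro c hc
      rw [abs_mul, abs_of_pos hr1]
      nlinarith [abs_nonneg c]
    have h2 := D.new_tor ⟨k.1, fun h => k.2 (Or.inl h)⟩ θ r t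
    rw [h1 k _ (hb _ (Real.abs_cos_le_one _)) (by
      have e1 : -4 + (r : ℝ) * Real.sin (2 * Real.pi * t) + 4 =
        (r : ℝ) * Real.sin (2 * Real.pi * t) := by ring
      show |-4 + (r : ℝ) * Real.sin (2 * Real.pi * t) + 4| ≤ 2
      rw [e1]
      exact hb _ (Real.abs_sin_le_one _))]
    exact h2

end Pool.Agent.H.MP_1611f1_gt.PZ
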