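import Pool.Agent.H.MP_1611f1_gt.PZ.Gm
import Pool.Agent.H.MP_1611f1_gt.PA.Vn
import Pool.Agent.H.MP_1611f1_gt.PA.E0b
import Pool.Agent.H.MP_1611f1_gt.PA.Lob

/-!
The circles on the walls.
-/

namespace Pool.Agent.H.MP_1611f1_gt.PZ

open Topology Set Filter
open Pool.Agent.H.MP_1611f1_gt.BR.U (Ci)
open Pool.Agent.H.MP_1611f1_gt.TW (cov KK phi)
open Pool.Agent.H.MP_1611f1_gt.LG (Cylinder)
open Pool.Agent.H.MP_1611f1_gt.PA (PPar Str Boxes Old New CX)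

variable {M₀ : Type} [TopologicalSpace M₀] {A : Type} {B : Boxes M₀ A} {P : A → PPar}
  {S : A → Str} {F₀ G : LS.PreFol M₀} {i : A} {l ρ : ℝ}

private theorem Kc_norm {x : ℝ} (h : |x| < 1 / 2) : ‖(x : Ci)‖ = |x| := by
  obtain ⟨h1, h2⟩ := abs_lt.1 h
  rw [BR.U.norm_cl, BR.U.cl_coe ⟨by linarith, h2⟩]

private theorem Kc_a (hρ : 0 < ρ) (hρ' : ρ ≤ 1 / 288) {s : ℝ} (hs : |s| < 9) : |ρ * s| < 1 / 32 := by
  rw [abs_mul, abs_of_pos hρ]
  have h := abs_nonneg s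
  calc ρ * |s| ≤ 1 / 288 * |s| := mul_le_mul_of_nonneg_right hρ' h
    _ < 1 / 288 * 9 := by linarith
    _ = 1 / 32 := by norm_num

private theorem Kc_b (hρ : 0 < ρ) (h1 : 1 / 8 + 9 * ρ < l) (h2 : l < 1 / 4 - 9 * ρ) {u : ℝ}
    (hu : |u| < 9) : 1 / 8 < l + ρ * u ∧ l + ρ * u < 1 / 4 := by
  obtain ⟨h3, h4⟩ := abs_lt.1 hu
  have h5 : ρ * (-9) < ρ * u := mul_lt_mul_of_pos_left h3 hρ
  have h6 : ρ * u < ρ * 9 := mul_lt_mul_of_pos_left h4 hρ
  exact ⟨by linarith, by linarith⟩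

/-- the map of the cylinder to the torus -/
private noncomputable def KcG (l ρ : ℝ) (z : LG.Cylinder) : Ci × Ci × Ci :=
  (((1 / 4 + ρ * z.2.2 : ℝ) : Ci), ((l + ρ * z.2.1 : ℝ) : Ci), z.1)

private theorem KcG_VX (hρ : 0 < ρ) (h1 : 1 / 8 + 9 * ρ < l)
    (h2 : l < 1 / 4 - 9 * ρ) {z : LG.Cylinder} (hz : z ∈ box9) : KcG l ρ z ∈ PA.VX := by
  left
  obtain ⟨h3, h4⟩ := Kc_b hρ h1 h2 hz.1
  show ‖((l + ρ * z.2.1 : ℝ) : Ci)‖ < 1 / 4
  have h5 : |l + ρ * z.2.1| = l + ρ * z.2.1 := abs_of_pos (by linarith)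
  rw [Kc_norm (by rw [h5]; linarith), h5]
  exact h4

private theorem Kc_aff (c : ℝ) (hρ : 0 < ρ) : IsOpenMap fun x : ℝ => ((c + ρ * x : ℝ) : Ci) := by
  have h : IsOpenMap fun x : ℝ => c + ρ * x :=
    ((Homeomorph.mulLeft₀ ρ hρ.ne').trans (Homeomorph.addLeft c)).isOpenMap
  exact BR.U.NCov_coe_loc.isOpenMap.comp h

private theorem Kc_affc (c : ℝ) : Continuous fun x : ℝ => ((c + ρ * x : ℝ) : Ci) :=
  BR.U.NCov_coe_loc.continuous.comp (continuous_const.add (continuous_const.mul continuous_id))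

private theorem KcG_cont : Continuous (KcG l ρ) :=
  ((Kc_affc (1 / 4)).comp (continuous_snd.comp continuous_snd)).prodMk
    (((Kc_affc l).comp (continuous_fst.comp continuous_snd)).prodMk continuous_fst)

private theorem KcG_open (hρ : 0 < ρ) : IsOpenMap (KcG l ρ) := by
  -- a permutation of the coordinates
  let e : Ci × (ℝ × ℝ) ≃ₜ ℝ × (ℝ × Ci) :=
    { toFun := fun z => (z.2.2, (z.2.1, z.1))
      invFun := fun z => (z.2.2, (z.2.1, z.1))
      left_inv := fun _ => rfl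
      right_inv := fun _ => rfl
      continuous_toFun := by fun_prop
      continuous_invFun := by fun_prop }
  have h := ((Kc_aff (1 / 4) hρ).prodMap ((Kc_aff l hρ).prodMap (IsOpenMap.id (X := Ci)))).comp
    e.isOpenMap
  exact h

private theorem Kc_inj (c : ℝ) {x y : ℝ} (hxy : |x - y| < 1)
    (h : ((c + x : ℝ) : Ci) = ((c + y : ℝ) : Ci)) : x = y := by
  have h2 : ((c + x - (c + y) : ℝ) : Ci) = 0 := by rw [AddCircle.coe_sub, h, sub_self]
  obtain ⟨n, hn⟩ := (AddCircle.coe_eq_zero_iff (1 : ℝ)).1 h2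
  rw [zsmul_eq_mul, mul_one] at hn
  have h3 : (n : ℝ) = x - y := by linarith
  rw [← h3] at hxy
  have h4 : n = 0 := by
    obtain ⟨h5, h6⟩ := abs_lt.1 hxy
    have h7 : (-1 : ℤ) < n := by exact_mod_cast h5
    have h8 : n < 1 := by exact_mod_cast h6
    omega
  rw [h4, Int.cast_zero] at h3
  linarith

private theorem KcG_inj (hρ : 0 < ρ) (hρ' : ρ ≤ 1 / 288) {z w : LG.Cylinder} (hz : z ∈ box9)
    (hw : w ∈ box9) (h : KcG l ρ z = KcG l ρ w) : z = w := by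
  have e1 : (((1 / 4 + ρ * z.2.2 : ℝ) : Ci)) = ((1 / 4 + ρ * w.2.2 : ℝ) : Ci) := congrArg Prod.fst h
  have e2 : (((l + ρ * z.2.1 : ℝ) : Ci)) = ((l + ρ * w.2.1 : ℝ) : Ci) :=
    congrArg (fun q : Ci × Ci × Ci => q.2.1) h
  have e3 : z.1 = w.1 := congrArg (fun q : Ci × Ci × Ci => q.2.2) h
  have key : ∀ {x y : ℝ}, |x| < 9 → |y| < 9 → ρ * x = ρ * y → x = y := fun _ _ h =>
    mul_left_cancel₀ hρ.ne' h
  have hd : ∀ {x y : ℝ}, |x| < 9 → |y| < 9 → |ρ * x - ρ * y| < 1 := by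
    intro x y hx hy
    have h1 := Kc_a hρ hρ' hx
    have h2 := Kc_a hρ hρ' hy
    have h3 := abs_sub (ρ * x) (ρ * y)
    linarith
  have f1 : z.2.2 = w.2.2 := key hz.2 hw.2 (Kc_inj _ (hd hz.2 hw.2) e1)
  have f2 : z.2.1 = w.2.1 := key hz.1 hw.1 (Kc_inj _ (hd hz.1 hw.1) e2)
  exact Prod.ext e3 (Prod.ext f2 f1)

/-- PROOF: `(θ, (u, s)) ↦ (1/4 + ρ s, l + ρ u, θ)` is an open embedding of `box9` into `VX` (lengths `18 ρ < 1/2`: `TW.circ_emb` restricted to an interval, or `PA.UX`-type arguments), then `B.emb i`. -/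
theorem wph_emb (hρ : 0 < ρ) (hρ' : ρ ≤ 1 / 288) (h1 : 1 / 8 + 9 * ρ < l) (h2 : l < 1 / 4 - 9 * ρ) :
    IsOpenEmbedding (box9.domRestrict (wph B i l ρ)) := by
  have hG : IsOpenEmbedding (fun z : box9 => KcG l ρ z.1) := by
    refine IsOpenEmbedding.of_continuous_injective_isOpenMap
      (KcG_cont.comp continuous_subtype_val) ?_ ?_
    · intro z w h
      exact Subtype.ext (KcG_inj hρ hρ' z.2 w.2 h)
    · exact (KcG_open hρ).comp Lf_box.isOpenMap_subtype_val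
  have hg : IsOpenEmbedding (fun z : box9 => (⟨KcG l ρ z.1, KcG_VX hρ h1 h2 z.2⟩ : PA.VX)) :=
    IsOpenEmbedding.of_comp _ PA.VX_open.isOpenEmbedding_subtypeVal hG
  exact (B.emb i).comp hg

/-- PROOF: `b ∈ (1/8, 1/4)`; as `Lf.notK` (`KK` has `‖b‖ ≤ 1/16`). -/
theorem wph_notK (hρ : 0 < ρ) (hρ' : ρ ≤ 1 / 288) (h1 : 1 / 8 + 9 * ρ < l) (h2 : l < 1 / 4 - 9 * ρ) :
    ∀ z ∈ box9, ∀ j, wph B i l ρ z ∉ B.N j '' KK := by
  rintro z hz j ⟨w, hw, hwz⟩
  obtain ⟨h3, h4⟩ := Kc_b hρ h1 h2 hz.1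
  have h5 : |l + ρ * z.2.1| = l + ρ * z.2.1 := abs_of_pos (by linarith)
  have hb : ‖(KcG l ρ z).2.1‖ = l + ρ * z.2.1 := by
    show ‖((l + ρ * z.2.1 : ℝ) : Ci)‖ = _
    rw [Kc_norm (by rw [h5]; linarith), h5]
  have hwb : ‖w.2.1‖ ≤ 1 / 16 := by
    have h6 : 256 * (‖w.2.1‖ ^ 2 + ‖w.2.2‖ ^ 2) ≤ 1 := hw
    have h7 := norm_nonneg w.2.1
    have h8 := norm_nonneg w.2.2
    nlinarith
  have hcov : ∀ {a b t : ℝ} {q : Ci × Ci × Ci}, 3 / 8 < b → b < 5 / 8 → q = cov (a, b, t) →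
      3 / 8 < ‖q.2.1‖ := by
    intro a b t q hb1 hb2 hq
    have h6 : q.2.1 = ((b - 1 / 2 : ℝ) : Ci) + ((1 / 2 : ℝ) : Ci) := by
      rw [hq, ← AddCircle.coe_add]
      show ((b : ℝ) : Ci) = _
      congr 1
      ring
    have h7 : ‖((b - 1 / 2 : ℝ) : Ci)‖ < 1 / 8 := by
      rw [Kc_norm (abs_lt.2 ⟨by linarith, by linarith⟩)]
      exact abs_lt.2 ⟨by linarith, by linarith⟩
    have h8 : ‖((1 / 2 : ℝ) : Ci)‖ = 1 / 2 := by
      have := AddCircle.norm_half_period_eq (p := (1 : ℝ))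
      rw [abs_one] at this
      exact this
    rw [h6]
    have h9 := norm_sub_le (((b - 1 / 2 : ℝ) : Ci) + ((1 / 2 : ℝ) : Ci)) ((b - 1 / 2 : ℝ) : Ci)
    rw [add_sub_cancel_left, h8] at h9
    linarith
  have hwV : w ∈ PA.VX := by
    left
    show ‖w.2.1‖ < 1 / 4
    linarith
  rcases B.sep i j _ _ (KcG_VX hρ h1 h2 hz) hwV hwz.symm with ⟨-, h⟩ | ⟨-, a, b, t, -, hb1, hb2, h, -⟩ |
    ⟨-, a, b, t, -, hb1, hb2, h, -⟩
  · rw [← h, hb] at hwb
    linarith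
  · have := hcov hb1 hb2 h
    rw [hb] at this
    linarith
  · have := hcov hb1 hb2 h
    linarith

/-- PROOF: `H.n i` at `R z`, `R w = (1/4 + ρ w.2.2, l + ρ w.2.1, w.1)`, which is in `XN` (`1/8 < b < 1/4`, so `rt > 4 > 25/9`). There `yn S = yv` (`yn_left`), and `yv = phi (-t) (fX a)`, because `lam = 0` and `rh = 0` for
`1/8 ≤ b ≤ 1/4` (`TW.LL_zero`); `fX a = 4 (a - 1/4) + 1/4` for `|a - 1/4| ≤ 1/16` (`fX_W`, `n = 0`). -/
theorem wph_germ (H : New B P S F₀ G) (hρ : 0 < ρ) (hρ' : ρ ≤ 1 / 288) (h1 : 1 / 8 + 9 * ρ < l)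
    (h2 : l < 1 / 4 - 9 * ρ) (z : ℝ × (ℝ × ℝ)) (hz1 : |z.2.1| < 9) (hz2 : |z.2.2| < 9)
    (c' : OpenPartialHomeomorph M₀ ((ℝ × ℝ) × ℝ)) (hc' : c' ∈ G.charts)
    (hs : wph B i l ρ ((z.1 : Ci), z.2) ∈ c'.source) :
    OrdEq z (fun w => (c' (wph B i l ρ ((w.1 : Ci), w.2))).2)
      (fun w => phi (-w.1) (1 / 4 + 4 * ρ * w.2.2) - 1 / 4) := by
  obtain ⟨R, hR⟩ : ∃ R : ℝ × (ℝ × ℝ) → ℝ × ℝ × ℝ,
      R = fun w => (1 / 4 + ρ * w.2.2, l + ρ * w.2.1, w.1) := ⟨_, rfl⟩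
  have hRc : Continuous R := by
    rw [hR]
    fun_prop
  have hcov : ∀ w : ℝ × (ℝ × ℝ), B.N i (cov (R w)) = wph B i l ρ ((w.1 : Ci), w.2) := by
    intro w
    rw [hR]
    rfl
  have hb : ∀ w : ℝ × (ℝ × ℝ), |w.2.1| < 9 → |w.2.2| < 9 → 1 / 8 < (R w).2.1 ∧ (R w).2.1 < 1 / 4 := by
    intro w hw1 _
    rw [hR]
    exact Kc_b hρ h1 h2 hw1
  have hnb : ∀ w : ℝ × (ℝ × ℝ), |w.2.1| < 9 → |w.2.2| < 9 → ‖((R w).2.1 : Ci)‖ = (R w).2.1 := by
    intro w hw1 hw2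
    obtain ⟨h3, h4⟩ := hb w hw1 hw2
    have h5 : |(R w).2.1| = (R w).2.1 := abs_of_pos (by linarith)
    rw [Kc_norm (by rw [h5]; linarith), h5]
  have hXN : R z ∈ PA.XN := by
    obtain ⟨h3, h4⟩ := hb z hz1 hz2
    refine ⟨?_, by linarith, by linarith, ?_⟩
    · left
      show ‖((R z).2.1 : Ci)‖ < 1 / 4
      rw [hnb z hz1 hz2]
      exact h4
    · show 25 / 9 < 256 * (‖((R z).2.1 : Ci)‖ ^ 2 + ‖((R z).2.2 : Ci)‖ ^ 2)
      rw [hnb z hz1 hz2]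
      have h5 : 0 ≤ ‖((R z).2.2 : Ci)‖ ^ 2 := sq_nonneg _
      nlinarith
  have hn := H.n i (R z) hXN c' hc' (by rw [hcov]; exact hs)
  have hn2 := OrdEq.comp_cont hRc.continuousAt hn
  have hev : ∀ᶠ w in 𝓝 z, |w.2.1| < 9 ∧ |w.2.2| < 9 := by
    refine IsOpen.mem_nhds ?_ ⟨hz1, hz2⟩
    exact (isOpen_lt (continuous_snd.fst.abs) continuous_const).inter
      (isOpen_lt (continuous_snd.snd.abs) continuous_const)
  have hval : ∀ᶠ w in 𝓝 z, phi (-w.1) (1 / 4 + 4 * ρ * w.2.2) =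
      (((P i).yn (S i)) ∘ R) w := by
    filter_upwards [hev] with w hw
    obtain ⟨h3, h4⟩ := hb w hw.1 hw.2
    show _ = (P i).yn (S i) (R w)
    rw [PA.PPar.yn_left (S := S i) (P i) h4.le]
    have hl : TW.lam (R w).2.1 (R w).2.2 = 0 := by
      refine TW.lam_zero (le_max_of_le_left ?_)
      rw [hnb w hw.1 hw.2]
      exact h3.le
    show _ = phi (-(R w).2.2) ((P i).vn (R w))
    rw [(P i).vn_fX hl (by rw [abs_of_pos (by linarith)]; linarith)]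
    have hs' := Kc_a hρ hρ' hw.2
    have e1 : (R w).1 = 1 / 4 + ρ * w.2.2 := by rw [hR]
    have e2 : (R w).2.2 = w.1 := by rw [hR]
    have e3 : PA.fX (R w).1 = 1 / 4 + 4 * ρ * w.2.2 := by
      rw [PA.fX_W (n := 0) (by
        rw [e1, Int.cast_zero]
        have : 1 / 4 + ρ * w.2.2 - (0 / 2 + 1 / 4) = ρ * w.2.2 := by ring
        rw [this]
        linarith), e1, Int.cast_zero]
      ring
    rw [e3, e2]
  have h3 : OrdEq z (fun w : ℝ × (ℝ × ℝ) => (c' (wph B i l ρ ((w.1 : Ci), w.2))).2)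
      (fun w : ℝ × (ℝ × ℝ) => phi (-w.1) (1 / 4 + 4 * ρ * w.2.2)) := by
    refine OrdEq.congr hn2 (Eventually.of_forall fun w => ?_) hval
    show (c' (wph B i l ρ ((w.1 : Ci), w.2))).2 = (c' (B.N i (cov (R w)))).2
    rw [hcov]
  have h4 : OrdEq z (fun w : ℝ × (ℝ × ℝ) => phi (-w.1) (1 / 4 + 4 * ρ * w.2.2))
      (fun w : ℝ × (ℝ × ℝ) => phi (-w.1) (1 / 4 + 4 * ρ * w.2.2) - 1 / 4) := by
    refine OrdEq.of_comp (fun x : ℝ => x - 1 / 4) ?_ ?_
    · intro x y h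
      show x - 1 / 4 < y - 1 / 4
      linarith
    · exact Eventually.of_forall fun w => rfl
  exact h3.trans h4

/-- PROOF: `c = 0`, `kap θ = -θ`, `deg = -1`, `ψ r s = phi r (1/4 + 4 ρ s) - 1/4` (`phi_cont`, `phi_mono`, `phi_wall` with `n = 0`), `h₀ z = phi 1 (z + 1/4) - 1/4` (an order isomorphism: the inverse is
`phi (-1) (z + 1/4) - 1/4`, `phi_add`, `phi_zero`), `δ₁ = 1/4`: for `0 < z < 1/4` the point `z + 1/4` is `1/2 + LL s`, moved up by `phi 1` (`phi_J'`, `LL_mono`); for `-1/4 < z < 0` it is `0 + LL s`, moved down (`phi_J`).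
`ang 0 0 = 0`, `rotC 0 = id`: `wph_germ`. -/
theorem exists_wgm (H : New B P S F₀ G) (hρ : 0 < ρ) (hρ' : ρ ≤ 1 / 288) (h1 : 1 / 8 + 9 * ρ < l)
    (h2 : l < 1 / 4 - 9 * ρ) : Nonempty (Gm G (⋃ j, B.N j '' KK) (wph B i l ρ) 0) := by
  have hinv : ∀ t z : ℝ, phi (-t) (phi t z) = z := by
    intro t z
    rw [← TW.phi_add, neg_add_cancel, TW.phi_zero]
  have hinv' : ∀ t z : ℝ, phi t (phi (-t) z) = z := by
    intro t z
    rw [← TW.phi_add, add_neg_cancel, TW.phi_zero]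
  let h₀ : ℝ ≃o ℝ :=
    { toFun := fun z => phi 1 (z + 1 / 4) - 1 / 4
      invFun := fun z => phi (-1) (z + 1 / 4) - 1 / 4
      left_inv := fun z => by
        show phi (-1) (phi 1 (z + 1 / 4) - 1 / 4 + 1 / 4) - 1 / 4 = z
        rw [sub_add_cancel, hinv, add_sub_cancel_right]
      right_inv := fun z => by
        show phi 1 (phi (-1) (z + 1 / 4) - 1 / 4 + 1 / 4) - 1 / 4 = z
        rw [sub_add_cancel, hinv', add_sub_cancel_right]
      map_rel_iff' := by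
        intro x y
        show phi 1 (x + 1 / 4) - 1 / 4 ≤ phi 1 (y + 1 / 4) - 1 / 4 ↔ x ≤ y
        rw [sub_le_sub_iff_right, (TW.phi_mono 1).le_iff_le, add_le_add_iff_right] }
  have hh₀ : ∀ z, h₀ z = phi 1 (z + 1 / 4) - 1 / 4 := fun _ => rfl
  refine ⟨{ emb := wph_emb hρ hρ' h1 h2
            c := 0
            kap := fun θ => -θ
            kap_cont := continuous_neg
            deg := -1
            deg_ne := by norm_num
            kap_add := fun θ => by push_cast; ring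
            ψ := fun r s => phi r (1 / 4 + 4 * ρ * s) - 1 / 4
            ψ_cont := ?_
            ψ_mono := ?_
            ψ_zero := ?_
            h₀ := h₀
            ψ_add := ?_
            δ₁ := 1 / 4
            δ₁_pos := by norm_num
            h_pos := ?_
            h_neg := ?_
            notK := ?_
            germ := ?_ }⟩
  · have h3 : Continuous fun p : ℝ × ℝ => (p.1, 1 / 4 + 4 * ρ * p.2) := by fun_prop
    exact (TW.phi_cont.comp h3).sub continuous_const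
  · intro r s s' hs
    have h3 : 1 / 4 + 4 * ρ * s < 1 / 4 + 4 * ρ * s' := by
      have := mul_lt_mul_of_pos_left hs (by linarith : 0 < 4 * ρ)
      linarith
    have h4 := TW.phi_mono r h3
    show phi r (1 / 4 + 4 * ρ * s) - 1 / 4 < phi r (1 / 4 + 4 * ρ * s') - 1 / 4
    linarith
  · intro r
    have h3 := TW.phi_wall r 0
    rw [Int.cast_zero, zero_div, zero_add] at h3
    show phi r (1 / 4 + 4 * ρ * 0) - 1 / 4 = 0
    rw [mul_zero, add_zero, h3, sub_self]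
  · intro r s
    show phi (r + 1) (1 / 4 + 4 * ρ * s) - 1 / 4 = h₀ (phi r (1 / 4 + 4 * ρ * s) - 1 / 4)
    rw [hh₀, sub_add_cancel, add_comm r 1, TW.phi_add]
  · intro z hz hz'
    rw [hh₀]
    rcases TW.cell_cases (z + 1 / 4) with ⟨n, hn⟩ | ⟨n, s, hn⟩ | ⟨n, s, hn⟩
    · exfalso
      have h3 : (0 : ℝ) < n := by linarith
      have h4 : (n : ℝ) < 1 := by linarith
      have h5 : 0 < n := by exact_mod_cast h3
      have h6 : n < 1 := by exact_mod_cast h4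
      omega
    · exfalso
      obtain ⟨h7, h8⟩ := abs_lt.1 (TW.LL_abs s)
      have h3 : (0 : ℝ) < n := by linarith
      have h4 : (n : ℝ) < 1 := by linarith
      have h5 : 0 < n := by exact_mod_cast h3
      have h6 : n < 1 := by exact_mod_cast h4
      omega
    · have h3 := TW.LL_mono (show s < s + 1 by linarith)
      rw [hn, TW.phi_J']
      linarith
  · intro z hz hz'
    rw [hh₀]
    rcases TW.cell_cases (z + 1 / 4) with ⟨n, hn⟩ | ⟨n, s, hn⟩ | ⟨n, s, hn⟩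
    · exfalso
      have h3 : (-1 : ℝ) < n := by linarith
      have h4 : (n : ℝ) < 0 := by linarith
      have h5 : -1 < n := by exact_mod_cast h3
      have h6 : n < 0 := by exact_mod_cast h4
      omega
    · have h3 := TW.LL_mono (show s - 1 < s by linarith)
      rw [hn, TW.phi_J]
      linarith
    · exfalso
      obtain ⟨h7, h8⟩ := abs_lt.1 (TW.LL_abs s)
      have h3 : (-1 : ℝ) < n := by linarith
      have h4 : (n : ℝ) < 0 := by linarith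
      have h5 : -1 < n := by exact_mod_cast h3
      have h6 : n < 0 := by exact_mod_cast h4
      omega
  · intro z hz hK
    obtain ⟨j, hj⟩ := mem_iUnion.1 hK
    exact wph_notK hρ hρ' h1 h2 z hz j hj
  · intro z hz1 hz2 c' hc' hs
    have h3 := wph_germ H hρ hρ' h1 h2 z hz1 hz2 c' hc' hs
    have h4 : ∀ w : ℝ × (ℝ × ℝ), (rotC (-ang 0 0 w.1) w.2) = w.2 := by
      intro w
      have h5 : ang 0 0 w.1 = 0 := by simp [ang]
      rw [h5, neg_zero, rotC_zero]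
    refine h3.congr (Eventually.of_forall fun _ => rfl) (Eventually.of_forall fun w => ?_)
    show phi (-w.1) (1 / 4 + 4 * ρ * (rotC (-ang 0 0 w.1) w.2).2) - 1 / 4 = _
    rw [h4]

end Pool.Agent.H.MP_1611f1_gt.PZ
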