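import Pool.Agent.H.MP_1611f1_gt.PZ.Ext
import Pool.Agent.H.MP_1611f1_gt.LG.Main

/-!
Removing leaf curves, whose neighbourhoods are given in another framing.
-/

namespace Pool.Agent.H.MP_1611f1_gt.PZ

open Topology Set Filter
open Pool.Agent.H.MP_1611f1_gt.BR.U (Ci)
open Pool.Agent.H.MP_1611f1_gt.G (Ended Linear Detected)
open Pool.Agent.H.MP_1611f1_gt.LG (Drilled Cylinder solidTorus LeafCurve)

variable {M M₀ : Type*} [TopologicalSpace M] [TopologicalSpace M₀] [T2Space M₀] {J : Type*}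
  {T : Ended M J} {old : J → Prop} [Finite {j // ¬ old j}] {T₀ : Ended M₀ {j // old j}}
  {Nb Nl : {j // ¬ old j} → Cylinder → M₀}

/-- PROOF. Let `g : M₀ ≃ₜ M₀` be the homeomorphism of `exists_ext` for `N = Nl` and `Φ j` = the homeomorphism of `exists_GG` for `q j` if `sp j`, the identity otherwise. Put
`p = g ∘ D.p`. `range_iff`: `g x' = x`, `x ∈ range p ↔ x' ∈ range D.p ↔ ∀ k, x' ∉ Nb k '' solidTorus`, and `g '' (Nb k '' solidTorus) = Nl k '' solidTorus`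
(for `sp k`: `Nb k (θ, (v.1, v.2 - 4)) = Nl k (θ, rotC (q θ - 2πkθ) v)` is mapped to `Nl k (θ, w - (0, 4))`, `w = rotC (-2πkθ) v`, by `G1_eq`, `G2_eq`, `rotC_add`, `rotC_nrm`; for `v` with
`|v| ≤ 1`; the map `v ↦ rotC (-2πkθ) v` is a bijection of the disc; for `¬ sp k`: `h1` and `g = id` on `range (Nl k)`). `old_tor`: `away`. `new_tor`, `sp k`: `(shT k T).tor k (θ, r, t) = T.tor k (θ, r, t + kθ)`,
`D.new_tor` gives `Nb k (θ, (r cos, -4 + r sin))` at the angle `2π (t + kθ)`, `v = rotC (2πkθ) w`, `w = (r cos 2πt, r sin 2πt)`; `h2`, then `G1_eq`, `G2_eq`. `¬ sp k`: `k = 0`, `h1`. -/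
theorem twist_drill (D : Drilled T₀ Nb T) (emb : ∀ j, IsOpenEmbedding (Nl j))
    (disj : ∀ j k z w, Nl j z = Nl k w → j = k) (away : ∀ j z k w, Nl j z ≠ T₀.tor k w)
    (sp : {j // ¬ old j} → Prop) (k : J → ℤ) (hk : ∀ j, old j → k j = 0)
    {q : {j // ¬ old j} → Ci → ℝ} (hq : ∀ j, Continuous (q j))
    (h1 : ∀ j, ¬ sp j → k j.1 = 0 ∧ ∀ z : Cylinder, |z.2.1| ≤ 2 → |z.2.2 + 4| ≤ 2 → Nb j z = Nl j z)
    (h2 : ∀ j, sp j → ∀ (θ : ℝ) (v : ℝ × ℝ), v.1 ^ 2 + v.2 ^ 2 < 4 →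
      Nb j ((θ : Ci), (v.1, v.2 - 4)) = Nl j ((θ : Ci), rotC (q j θ - 2 * Real.pi * k j.1 * θ) v)) :
    Nonempty (Drilled T₀ Nl (shT k T)) := by
  classical
  have hΦ : ∀ j, ∃ h : Cylinder ≃ₜ Cylinder,
      (∀ z : Cylinder, 9 ≤ |z.2.1| ∨ 9 ≤ |z.2.2| → h z = z) ∧
      ((sp j ∧ ∀ θ v, h (θ, v) = (θ, G2 (G1 (q j θ) v))) ∨ (¬ sp j ∧ ∀ z, h z = z)) := by
    intro j
    by_cases hs : sp j
    · obtain ⟨h, h3, h4⟩ := exists_GG (hq j)
      exact ⟨h, h4, Or.inl ⟨hs, h3⟩⟩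
    · exact ⟨Homeomorph.refl _, fun z _ => rfl, Or.inr ⟨hs, fun z => rfl⟩⟩
  choose Φ hΦ1 hΦ2 using hΦ
  obtain ⟨g, hg1, hg2⟩ := exists_ext emb disj Φ hΦ1
  have key : ∀ (j : {j // ¬ old j}) (θ : ℝ) (v : ℝ × ℝ), v.1 ^ 2 + v.2 ^ 2 < 4 →
      g (Nb j ((θ : Ci), (v.1, v.2 - 4))) =
        Nl j ((θ : Ci), ((rotC (-(2 * Real.pi * k j.1 * θ)) v).1,
          (rotC (-(2 * Real.pi * k j.1 * θ)) v).2 - 4)) := by
    intro j θ v hv
    rcases hΦ2 j with ⟨hs, h3⟩ | ⟨hs, h3⟩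
    · have n1 := rotC_nrm (q j θ - 2 * Real.pi * k j.1 * θ) v
      have n2 := rotC_nrm (-(2 * Real.pi * k j.1 * θ)) v
      have e1 : -(q j θ) + (q j θ - 2 * Real.pi * k j.1 * θ) = -(2 * Real.pi * k j.1 * θ) := by
        ring
      rw [h2 j hs θ v hv, hg1, h3, G1_eq (by rw [n1]; exact hv.le), rotC_add, e1,
        G2_eq (by rw [n2]; exact hv.le)]
    · obtain ⟨h4, h5⟩ := h1 j hs
      have e1 : rotC (-(2 * Real.pi * k j.1 * θ)) v = v := by
        rw [h4, Int.cast_zero, mul_zero, zero_mul, neg_zero, rotC_zero]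
      have a1 : |v.1| ≤ 2 := abs_le_of_sq_le_sq (by nlinarith [sq_nonneg v.2]) (by norm_num)
      have a2 : |v.2| ≤ 2 := abs_le_of_sq_le_sq (by nlinarith [sq_nonneg v.1]) (by norm_num)
      rw [e1, h5 _ a1 (by simpa using a2), hg1, h3]
  have tor : ∀ (j : {j // ¬ old j}) (x : M₀),
      x ∈ Nb j '' Pool.Agent.H.MP_1611f1_gt.LG.solidTorus ↔
        g x ∈ Nl j '' Pool.Agent.H.MP_1611f1_gt.LG.solidTorus := by
    intro j x
    constructor
    · rintro ⟨⟨θ, a, b⟩, hz, rfl⟩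
      obtain ⟨θ, rfl⟩ := QuotientAddGroup.mk_surjective θ
      have hz' : a ^ 2 + (b + 4) ^ 2 ≤ 1 := hz
      have h3 := key j θ (a, b + 4) (by show a ^ 2 + (b + 4) ^ 2 < 4; linarith)
      have n2 := rotC_nrm (-(2 * Real.pi * k j.1 * θ)) (a, b + 4)
      simp only [add_sub_cancel_right] at h3
      refine ⟨_, ?_, h3.symm⟩
      show (rotC (-(2 * Real.pi * k j.1 * θ)) (a, b + 4)).1 ^ 2
        + ((rotC (-(2 * Real.pi * k j.1 * θ)) (a, b + 4)).2 - 4 + 4) ^ 2 ≤ 1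
      rw [sub_add_cancel, n2]
      exact hz'
    · rintro ⟨⟨θ, a, b⟩, hz, hx⟩
      obtain ⟨θ, rfl⟩ := QuotientAddGroup.mk_surjective θ
      have hz' : a ^ 2 + (b + 4) ^ 2 ≤ 1 := hz
      have n2 := rotC_nrm (2 * Real.pi * k j.1 * θ) (a, b + 4)
      have h3 := key j θ (rotC (2 * Real.pi * k j.1 * θ) (a, b + 4)) (by
        rw [n2]
        show a ^ 2 + (b + 4) ^ 2 < 4
        linarith)
      rw [rotC_add, neg_add_cancel, rotC_zero] at h3
      simp only [add_sub_cancel_right] at h3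
      refine ⟨_, ?_, g.injective (h3.trans hx)⟩
      show (rotC (2 * Real.pi * k j.1 * θ) (a, b + 4)).1 ^ 2
        + ((rotC (2 * Real.pi * k j.1 * θ) (a, b + 4)).2 - 4 + 4) ^ 2 ≤ 1
      rw [sub_add_cancel, n2]
      exact hz'
  refine ⟨⟨fun x => g (D.p x), g.isOpenEmbedding.comp D.emb, ?_, ?_, ?_⟩⟩
  · intro x
    obtain ⟨x, rfl⟩ := g.surjective x
    have h3 : g x ∈ range (fun y => g (D.p y)) ↔ x ∈ range D.p := by
      constructor
      · rintro ⟨y, hy⟩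
        exact ⟨y, g.injective hy⟩
      · rintro ⟨y, rfl⟩
        exact ⟨y, rfl⟩
    rw [h3, D.range_iff]
    exact forall_congr' fun j => not_congr (tor j x)
  · intro j w
    have h3 : (shT k T).tor j w = T.tor j w := by
      show T.tor j (shr (k j) w) = T.tor j w
      rw [hk j.1 j.2]
      congr 1
      simp [shr]
    show g (D.p ((shT k T).tor j w)) = T₀.tor j w
    rw [h3, D.old_tor]
    refine hg2 _ fun i => ?_
    rintro ⟨z, hz⟩
    exact away i z j w hz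
  · intro j θ r t
    obtain ⟨θ, rfl⟩ := QuotientAddGroup.mk_surjective θ
    have h3 : (shT k T).tor j ((θ : Ci), r, (t : Ci)) =
        T.tor j ((θ : Ci), r, ((t + k j.1 * θ : ℝ) : Ci)) := by
      show T.tor j (shr (k j) ((θ : Ci), r, (t : Ci))) = _
      congr 1
      simp only [shr]
      congr 2
      rw [AddCircle.coe_add]
      have h4 : (((k j.1 : ℝ) * θ : ℝ) : Ci) = k j.1 • (θ : Ci) := by
        rw [← zsmul_eq_mul, AddCircle.coe_zsmul]
      rw [h4]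
    have h5 := D.new_tor j (θ : Ci) r (t + k j.1 * θ)
    have hr : (r : ℝ) ^ 2 < 4 := by
      have := r.2.1
      have := r.2.2
      nlinarith
    have hcs := Real.sin_sq_add_cos_sq (2 * Real.pi * (t + k j.1 * θ))
    have h6 := key j θ ((r : ℝ) * Real.cos (2 * Real.pi * (t + k j.1 * θ)),
      (r : ℝ) * Real.sin (2 * Real.pi * (t + k j.1 * θ))) (by
        show ((r : ℝ) * Real.cos (2 * Real.pi * (t + k j.1 * θ))) ^ 2
          + ((r : ℝ) * Real.sin (2 * Real.pi * (t + k j.1 * θ))) ^ 2 < 4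
        have h7 : ((r : ℝ) * Real.cos (2 * Real.pi * (t + k j.1 * θ))) ^ 2
          + ((r : ℝ) * Real.sin (2 * Real.pi * (t + k j.1 * θ))) ^ 2 = (r : ℝ) ^ 2 := by
          linear_combination (r : ℝ) ^ 2 * hcs
        rw [h7]
        exact hr)
    have h8 : rotC (-(2 * Real.pi * k j.1 * θ)) ((r : ℝ) * Real.cos (2 * Real.pi * (t + k j.1 * θ)),
        (r : ℝ) * Real.sin (2 * Real.pi * (t + k j.1 * θ))) =
        ((r : ℝ) * Real.cos (2 * Real.pi * t), (r : ℝ) * Real.sin (2 * Real.pi * t)) := by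
      have e1 : 2 * Real.pi * t
          = -(2 * Real.pi * k j.1 * θ) + 2 * Real.pi * (t + k j.1 * θ) := by ring
      unfold rotC
      rw [e1, Real.cos_add, Real.sin_add]
      ext <;> simp only <;> ring
    rw [h8] at h6
    show g (D.p ((shT k T).tor j ((θ : Ci), r, (t : Ci)))) = _
    rw [h3, h5]
    have h9 : -4 + (r : ℝ) * Real.sin (2 * Real.pi * (t + k j.1 * θ))
        = (r : ℝ) * Real.sin (2 * Real.pi * (t + k j.1 * θ)) - 4 := by ring
    have h10 : -4 + (r : ℝ) * Real.sin (2 * Real.pi * t)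
        = (r : ℝ) * Real.sin (2 * Real.pi * t) - 4 := by ring
    rw [h9, h10]
    exact h6

/-- PROOF. `twist_drill`, `LG.leaf_detected` for `shT k T` and the covectors `(x + k y, y)`, `sh_detected`. -/
theorem twist_detected {F : Foliation M₀} (hF : F.Taut) {x y : J → ℝ}
    (hlin : Linear T₀ F (fun j => x j) (fun j => y j)) (D : Drilled T₀ Nb T)
    (sp : {j // ¬ old j} → Prop) (k : J → ℤ) (hk : ∀ j, old j → k j = 0)
    (leaf : ∀ j, LeafCurve F (Nl j) (x j + k j * y j))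
    (disj : ∀ j k z w, Nl j z = Nl k w → j = k) (away : ∀ j z k w, Nl j z ≠ T₀.tor k w)
    {q : {j // ¬ old j} → Ci → ℝ} (hq : ∀ j, Continuous (q j))
    (h1 : ∀ j, ¬ sp j → k j.1 = 0 ∧ ∀ z : Cylinder, |z.2.1| ≤ 2 → |z.2.2 + 4| ≤ 2 → Nb j z = Nl j z)
    (h2 : ∀ j, sp j → ∀ (θ : ℝ) (v : ℝ × ℝ), v.1 ^ 2 + v.2 ^ 2 < 4 →
      Nb j ((θ : Ci), (v.1, v.2 - 4)) = Nl j ((θ : Ci), rotC (q j θ - 2 * Real.pi * k j.1 * θ) v)) :
    Detected T x y := by
  obtain ⟨D'⟩ := twist_drill D (fun j => (leaf j).emb) disj away sp k hk hq h1 h2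
  refine sh_detected k (LG.leaf_detected (x := fun j => x j + k j * y j) hF ?_ leaf disj away D')
  intro j z hz c hc hs
  have h3 := hlin j z hz c hc hs
  simpa only [hk j.1 j.2, Int.cast_zero, zero_mul, add_zero] using h3

end Pool.Agent.H.MP_1611f1_gt.PZ
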