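import Pool.Agent.H.MP_1611f1_gt.PZ.Lf
import Pool.Agent.H.MP_1611f1_gt.PZ.Kc
import Pool.Agent.H.MP_1611f1_gt.PZ.TwD
import Pool.Agent.H.MP_1611f1_gt.PZ.DrA
import Pool.Agent.H.MP_1611f1_gt.PA.Fol
import Pool.Agent.H.MP_1611f1_gt.TW.Main

/-!
The theorem at the level of the manifold `M₀` with boxes.
-/

namespace Pool.Agent.H.MP_1611f1_gt.PZ

open Topology Set Filter
open Pool.Agent.H.MP_1611f1_gt.BR.U (Ci)
open Pool.Agent.H.MP_1611f1_gt.G (Ended Linear Detected)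
open Pool.Agent.H.MP_1611f1_gt.TW (cov plr KK solid_eq)
open Pool.Agent.H.MP_1611f1_gt.LG (Drilled Cylinder solidTorus LeafCurve)
open Pool.Agent.H.MP_1611f1_gt.PA (PPar Str Boxes Old New CX XT)

theorem KK_K8 : KK ⊆ K8 := by
  intro z hz
  have h : 256 * (‖z.2.1‖ ^ 2 + ‖z.2.2‖ ^ 2) ≤ 1 := hz
  have h1 := norm_nonneg z.2.1
  have h2 := norm_nonneg z.2.2
  constructor
  · nlinarith [sq_nonneg ‖z.2.2‖]
  · nlinarith [sq_nonneg ‖z.2.1‖]

theorem plr_K8 (z : ℝ × Ioo (1 : ℝ) 2 × ℝ) : cov (plr z) ∈ K8 := by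
  have hno : ∀ r : ℝ, ‖(r : Ci)‖ ≤ |r| := by
    intro r
    rw [UnitAddCircle.norm_eq]
    have := round_le r 0
    simpa using this
  have hr1 : (0 : ℝ) < z.2.1 := by linarith [z.2.1.2.1]
  have hr2 : (z.2.1 : ℝ) < 2 := z.2.1.2.2
  have hb : ∀ c : ℝ, |c| ≤ 1 → |(z.2.1 : ℝ) * c / 16| ≤ 1 / 8 := by
    intro c hc
    rw [abs_div, abs_mul, abs_of_pos hr1, abs_of_pos (by norm_num : (0 : ℝ) < 16)]
    have := abs_nonneg c
    rw [div_le_iff₀ (by norm_num)]
    nlinarith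
  exact ⟨(hno _).trans (hb _ (Real.abs_cos_le_one _)), (hno _).trans (hb _ (Real.abs_sin_le_one _))⟩

theorem KK_closed' : IsClosed KK := by
  have h : Continuous fun z : Ci × Ci × Ci => 256 * (‖z.2.1‖ ^ 2 + ‖z.2.2‖ ^ 2) := by fun_prop
  exact isClosed_le h continuous_const

theorem pq_detected {M : Type} [TopologicalSpace M] {J : Type} {T : Ended M J} {x y : J → ℝ}
    {M₀ : Type} [TopologicalSpace M₀] [T2Space M₀] {A : Type} [Finite A] {B : Boxes M₀ A}
    {P : A → PPar} {S : A → Str} {F₀ : LS.PreFol M₀} (hO : Old B P S F₀)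
    (hup : ∀ G : LS.PreFol M₀, New B P S F₀ G → ∀ y, (∀ i, y ∉ B.N i '' KK) → G.Up y y)
    {old : J → Prop} [Finite {j // ¬ old j}] {T₀ : Ended M₀ {j // old j}}
    (hlin : ∀ (j : {j // old j}) (z : ℝ × Ioo (1 : ℝ) 2 × ℝ), (z.2.1 : ℝ) < 4 / 3 →
      ∀ c ∈ F₀.charts, T₀.cov j z ∈ c.source →
        OrdEq z (fun w => (c (T₀.cov j w)).2) (fun w => x j * w.1 + y j * w.2.2))
    {Nb : {j // ¬ old j} → Cylinder → M₀} {e : A → {j // ¬ old j}} {C : Set {j // ¬ old j}}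
    {k : J → ℕ} (Q : Cvs B F₀ T₀ Nb e C k) (D : Drilled T₀ Nb T)
    (he : ∀ i, 0 < x (e i).1 ∧ y (e i).1 = -((P i).μ * x (e i).1))
    (hx : ∀ j : {j // ¬ old j}, (∀ i, j ≠ e i) → x j.1 + k j.1 * y j.1 ≠ 0) :
    Detected T x y := by
  classical
  obtain ⟨G, H⟩ := PA.exists_new hO
  obtain ⟨K, hK⟩ : ∃ K : Set M₀, K = ⋃ i, B.N i '' KK := ⟨_, rfl⟩
  have hKc : IsClosed K := by
    rw [hK]
    exact isClosed_iUnion_of_finite fun i => PA.N_closed (B.emb i) KK_closed' PA.KK_CX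
  have hmK : ∀ y, y ∉ K ↔ ∀ i, y ∉ B.N i '' KK := by
    intro y
    rw [hK]
    simp only [mem_iUnion, not_exists]
  have hdom : G.dom = {y | y ∉ K} := by
    rw [H.dom]
    ext y
    exact (hmK y).symm
  let p : {y : M₀ // y ∉ K} → M₀ := Subtype.val
  have hp : IsOpenEmbedding p := hKc.isOpen_compl.isOpenEmbedding_subtypeVal
  obtain ⟨F', hF'⟩ := LS.exists_pull hp G (fun y => by rw [hdom]; exact y.2)
  have hT : F'.Taut := by
    refine LS.pull_taut hp G ?_ hF' fun y hy => ?_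
    · rw [hdom]
      exact Subtype.range_coe
    · rw [hdom] at hy
      exact hup G H y ((hmK y).1 hy)
  -- the other curves
  let E : J → Prop := fun j => ∃ i, j = (e i).1
  have hKE : K = {x | ∃ k : {j // ¬ old j}, E k.1 ∧ x ∈ Nb k '' solidTorus} := by
    have h1 : ∀ i, Nb (e i) '' solidTorus = B.N i '' KK := by
      intro i
      rw [← solid_eq]
      exact image_congr fun z _ => Q.e_nbh i z
    rw [hK]
    ext y
    rw [mem_iUnion]
    constructor
    · rintro ⟨i, hi⟩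
      exact ⟨e i, ⟨i, rfl⟩, by rw [h1]; exact hi⟩
    · rintro ⟨m, ⟨i, hi⟩, hy⟩
      have h2 : m = e i := Subtype.ext hi
      subst h2
      exact ⟨i, by rw [← h1]; exact hy⟩
  let o : {j // ¬ (old j ∨ E j)} → {j // ¬ old j} := fun j => ⟨j.1, fun h => j.2 (Or.inl h)⟩
  have ho : ∀ j i, o j ≠ e i := fun j i h => j.2 (Or.inr ⟨i, congrArg Subtype.val h⟩)
  have hoi : ∀ j k, o j = o k → j = k := fun j k h => by
    have h' : (o j).1 = (o k).1 := congrArg Subtype.val h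
    exact Subtype.ext h'
  have hgm : ∀ j, Nonempty (Gm G K (Q.ph (o j)) (k j.1)) := by
    intro j
    rw [hK]
    by_cases hj : o j ∈ C
    · rw [Q.C_ph _ hj, show k j.1 = 0 from Q.k_C _ hj]
      exact exists_wgm H Q.ρ_pos Q.ρ_le (Q.l_mem _ hj).1 (Q.l_mem _ hj).2
    · exact ⟨(Q.lf (o j) (ho j) hj).gm hO H⟩
  let gm : ∀ j, Gm G K (Q.ph (o j)) (k j.1) := fun j => (hgm j).some
  have h0 : (0 : Cylinder) ∈ box9 := by
    constructor <;> simp
  let Np : {j // ¬ (old j ∨ E j)} → Cylinder → {y : M₀ // y ∉ K} := fun j z =>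
    if h : Q.ph (o j) z ∉ K then ⟨_, h⟩ else ⟨_, (gm j).notK 0 h0⟩
  have hNp : ∀ j, ∀ z ∈ box9, p (Np j z) = Q.ph (o j) z := by
    intro j z hz
    show (Np j z).1 = _
    simp only [Np, dif_pos ((gm j).notK z hz)]
  let N1 : {j // ¬ (old j ∨ E j)} → Cylinder → {y : M₀ // y ∉ K} := fun j z =>
    Np j (z.1, (z.2.1, z.2.2 + 4))
  have hb9 : ∀ z : Cylinder, |z.2.1| ≤ 2 → |z.2.2 + 4| ≤ 2 →
      ((z.1, (z.2.1, z.2.2 + 4)) : Cylinder) ∈ box9 := fun z h1 h2 =>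
    ⟨lt_of_le_of_lt h1 (by norm_num), lt_of_le_of_lt h2 (by norm_num)⟩
  obtain ⟨T1, hT1, ⟨D1⟩⟩ := exists_DA D E hKE hKc N1 (by
    intro j z h1 h2
    have h3 : (N1 j z).1 = _ := hNp j _ (hb9 z h1 h2)
    rw [h3]
    exact (Q.nbh (o j) (ho j) z h1 h2).symm)
  -- the ends
  have hcv : Continuous fun z : ℝ × Ioo (1 : ℝ) 2 × ℝ =>
      ((z.1 : Ci), z.2.1, (z.2.2 : Ci)) := by
    refine Continuous.prodMk ?_ (Continuous.prodMk ?_ ?_)
    · exact (AddCircle.continuous_mk' (1 : ℝ)).comp continuous_fst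
    · exact continuous_fst.comp continuous_snd
    · exact (AddCircle.continuous_mk' (1 : ℝ)).comp (continuous_snd.comp continuous_snd)
  have hcov : ∀ {M' : Type} [TopologicalSpace M'] {J' : Type} (T' : Ended M' J') (j : J'),
      Continuous (T'.cov j) := by
    intro M' _ J' T' j
    exact (T'.emb j).continuous.comp hcv
  have hold : ∀ (j : {j // old j ∨ E j}) (hj : old j.1) w,
      p (T1.tor j w) = T₀.tor ⟨j.1, hj⟩ w := by
    intro j hj w
    exact (hT1 j w).trans (D.old_tor ⟨j.1, hj⟩ w)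
  have hnew : ∀ (j : {j // old j ∨ E j}), ¬ old j.1 → ∃ i, j.1 = (e i).1 ∧
      ∀ w : ℝ × Ioo (1 : ℝ) 2 × ℝ, p (T1.cov j w) = B.N i (cov (plr w)) := by
    rintro ⟨j, hj⟩ hj'
    obtain ⟨i, hi⟩ := hj.resolve_left hj'
    refine ⟨i, hi, fun w => ?_⟩
    subst hi
    refine (hT1 _ _).trans ((D.new_tor (e i) _ _ _).trans ?_)
    rw [Q.e_nbh]
    unfold cov plr
    simp only
    congr 3
    congr 1
    ring
  have hlin1 : Linear T1 F' (fun j => x j) (fun j => y j) := by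
    intro j z hz c hc hs
    rw [hF'] at hc
    obtain ⟨c0, hc0, hsrc, hval⟩ := hc
    have hs0 : p (T1.cov j z) ∈ c0.source := by
      rw [hsrc] at hs
      exact hs
    have hev : ∀ᶠ w in 𝓝 z, (c (T1.cov j w)).2 = (c0 (p (T1.cov j w))).2 := by
      filter_upwards [(hcov T1 j).continuousAt (c.open_source.mem_nhds hs)] with w hw
      exact hval _ hw
    by_cases hj : old j.1
    · have e1 : ∀ w, p (T1.cov j w) = T₀.cov ⟨j.1, hj⟩ w := fun w => hold j hj _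
      rw [e1] at hs0
      have haw : ∀ i, T₀.cov ⟨j.1, hj⟩ z ∉ B.N i '' CX := fun i => Q.away i ⟨j.1, hj⟩ _
      obtain ⟨c', hc', hs'⟩ := hO.dom _ haw
      have h5 := H.out _ haw c0 hc0 c' hc' hs0 hs'
      have h6 := OrdEq.comp_cont ((hcov T₀ ⟨j.1, hj⟩).continuousAt (x := z)) h5
      have h7 := h6.trans (hlin ⟨j.1, hj⟩ z hz c' hc' hs')
      refine h7.congr ?_ (Eventually.of_forall fun w => rfl)
      filter_upwards [hev] with w hw
      rw [hw, e1]
      rfl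
    · obtain ⟨i, hje, e1⟩ := hnew j hj
      rw [e1] at hs0
      have hzT : z ∈ XT := lt_trans hz (by norm_num)
      have h5 := H.t i z hzT c0 hc0 hs0
      have h6 : ∀ᶠ w : ℝ × Ioo (1 : ℝ) 2 × ℝ in 𝓝 z, (w.2.1 : ℝ) < 4 / 3 := by
        have h7 : Continuous fun w : ℝ × Ioo (1 : ℝ) 2 × ℝ => (w.2.1 : ℝ) := by fun_prop
        exact h7.continuousAt.eventually_lt_const hz
      have hxe := (he i).1
      have h7 : OrdEq z (P i).TT (fun w => x j * w.1 + y j * w.2.2) := by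
        refine OrdEq.of_comp (fun v => x (e i).1 * v)
          (fun a b hab => mul_lt_mul_of_pos_left hab hxe) ?_
        filter_upwards [h6] with w hw
        rw [(P i).TT_lin hw.le, hje, (he i).2]
        ring
      refine (h5.trans h7).congr ?_ (Eventually.of_forall fun w => rfl)
      filter_upwards [hev] with w hw
      rw [hw, e1]
  have hfin : Finite {j // ¬ (old j ∨ E j)} := Finite.of_injective o fun j k h => hoi j k h
  have hq : ∀ j : {j // ¬ (old j ∨ E j)}, ∃ q : Ci → ℝ, Continuous q ∧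
      ∀ θ : ℝ, q (θ : Ci) = 2 * Real.pi * ((k j.1 : ℕ) : ℤ) * θ - ang (k j.1) (gm j).c θ := fun j =>
    exists_q (ang_cont _ _) (ang_add _ _)
  choose q hq1 hq2 using hq
  refine twist_detected (Nl := fun j => turn (ang (k j.1) (gm j).c) (Np j)) hT hlin1 D1
    (fun _ => True) (fun j => (k j : ℤ)) ?_ ?_ ?_ ?_ hq1 (fun j h => absurd trivial h) ?_
  · rintro j (hj | ⟨i, hj⟩)
    · show (k j : ℤ) = 0
      rw [Q.k_old j hj]
      rfl
    · show (k j : ℤ) = 0
      rw [hj, Q.k_e i]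
      rfl
  · intro j
    refine (gm j).leaf hp hF' (hNp j) ?_
    have h1 := hx (o j) (ho j)
    simpa only [Int.cast_natCast] using h1
  · intro j m z w h
    have h' := congrArg p h
    have e1 : p (turn (ang (k j.1) (gm j).c) (Np j) z) = _ := hNp j _ (turn_mem _ z)
    have e2 : p (turn (ang (k m.1) (gm m).c) (Np m) w) = _ := hNp m _ (turn_mem _ w)
    rw [e1, e2] at h'
    exact hoi _ _ (Q.ph_disj _ _ (ho j) (ho m) _ (turn_mem _ z) _ (turn_mem _ w) h')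
  · rintro j z m ⟨θ, r, t⟩ h
    have h' := congrArg p h
    have e1 : p (turn (ang (k j.1) (gm j).c) (Np j) z) = _ := hNp j _ (turn_mem _ z)
    rw [e1] at h'
    by_cases hm : old m.1
    · rw [hold m hm] at h'
      exact Q.ph_away _ (ho j) _ (turn_mem _ z) _ _ h'
    · obtain ⟨θ, rfl⟩ := QuotientAddGroup.mk_surjective θ
      obtain ⟨t, rfl⟩ := QuotientAddGroup.mk_surjective t
      obtain ⟨i, -, h5⟩ := hnew m hm
      have h6 : p (T1.tor m ((θ : Ci), r, (t : Ci))) = B.N i (cov (plr (θ, r, t))) :=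
        h5 (θ, r, t)
      exact Q.tube _ (ho j) _ (turn_mem _ z) i ⟨_, plr_K8 (θ, r, t), (h'.trans h6).symm⟩
  · intro j _ θ v hv
    have hv1 : |v.1| ≤ 2 := by
      rw [abs_le]
      constructor <;> nlinarith [sq_nonneg v.2, sq_nonneg v.1]
    have hv2 : |v.2| ≤ 2 := by
      rw [abs_le]
      constructor <;> nlinarith [sq_nonneg v.1, sq_nonneg v.2]
    have e1 : q j (θ : Ci) - 2 * Real.pi * ((k j.1 : ℕ) : ℤ) * θ = -ang (k j.1) (gm j).c θ := by
      rw [hq2]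
      ring
    show Np j ((θ : Ci), (v.1, v.2 - 4 + 4)) = _
    rw [e1]
    show _ = turn (ang (k j.1) (gm j).c) (Np j) ((θ : Ci), rotC (-ang (k j.1) (gm j).c θ) v)
    rw [turn_rotC (ang_add _ _) (Np j) θ hv]
    congr 2
    ext
    · rfl
    · show v.2 - 4 + 4 = v.2
      ring

end Pool.Agent.H.MP_1611f1_gt.PZ
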