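import Pool.Agent.H.MP_1611f1_gt.PA.E0a
import Pool.Agent.H.MP_1611f1_gt.PZ.St

/-!
The germ of the new foliation at a special crossing.
-/

namespace Pool.Agent.H.MP_1611f1_gt.PZ

open Topology Set Filter
open Pool.Agent.H.MP_1611f1_gt.BR.U (Ci)
open Pool.Agent.H.MP_1611f1_gt.TW (cov)
open Pool.Agent.H.MP_1611f1_gt.LG (Cylinder)
open Pool.Agent.H.MP_1611f1_gt.PA (PPar Str Boxes New al)

theorem Crs_chi_neg (u : ℝ) : TW.chi (-u) = 1 - TW.chi u := by
  unfold TW.chi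
  rcases le_total ((1 + u) / 2) 0 with h | h
  · rw [max_eq_left (min_le_iff.2 (Or.inr h)), min_eq_left (by linarith),
      max_eq_right zero_le_one]
    ring
  · rcases le_total ((1 + u) / 2) 1 with h' | h'
    · rw [min_eq_right h', max_eq_right h, min_eq_right (by linarith),
        max_eq_right (by linarith)]
      ring
    · rw [min_eq_left h', max_eq_right zero_le_one, min_eq_right (by linarith),
        max_eq_left (by linarith)]
      ring

theorem Crs_cos_int (m : ℤ) : Real.cos (Real.pi * m) = if Even m then 1 else -1 := by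
  rw [mul_comm, Real.cos_int_mul_pi]
  split_ifs with h
  · exact h.neg_one_zpow
  · exact (Int.not_even_iff_odd.1 h).neg_one_zpow

theorem Crs_sin_int (m : ℤ) : Real.sin (Real.pi * m) = 0 := by
  rw [mul_comm, Real.sin_int_mul_pi]

/-- The angle near a crossing. PROOF: `|2kθ - m| < 1/4` with `θ = m/(2k) + v`, so `st (2kθ) = m - 1 + chi (24 k v)` (`st_near`); `al b = π chi (16 b)`, `16 b = -e σ 24 k v`, `chi (-u) = 1 - chi u`. For `e σ = -1`:
`ang = π (m - 1) + al b`, for `e σ = 1`: `ang = π m - al b`. (`Real.cos_add_int_mul_pi`, `Real.cos_int_mul_pi_sub` etc., `e = (-1) ^ m`.) -/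
theorem ang_cross {k : ℕ} (hk : 0 < k) (c m : ℤ) {v σ e : ℝ} (hσ : σ = 1 ∨ σ = -1)
    (he : e = if Even m then 1 else -1) (hv : |v| < 1 / (8 * k)) :
    Real.cos (ang k c (m / (2 * k) + v)) = σ * Real.cos (al (-(e * σ) * (3 * k / 2) * v)) ∧
    Real.sin (ang k c (m / (2 * k) + v)) = -(e * Real.sin (al (-(e * σ) * (3 * k / 2) * v))) := by
  have hk' : (0 : ℝ) < k := by exact_mod_cast hk
  have h8 : |v| * (8 * k) < 1 := by
    rwa [lt_div_iff₀ (by positivity)] at hv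
  have e1 : 2 * (k : ℝ) * (m / (2 * k) + v) = m + 2 * k * v := by
    field_simp
  have h1 : |2 * (k : ℝ) * v| ≤ 1 / 2 := by
    rw [abs_mul, abs_of_pos (by positivity : (0 : ℝ) < 2 * k)]
    linarith
  have e2 : ang k c (m / (2 * k) + v) = Real.pi * (m - 1 + TW.chi (24 * k * v)) := by
    unfold ang
    rw [if_neg (by omega), e1, st_near (m := m) (by rwa [add_sub_cancel_left]),
      add_sub_cancel_left]
    congr 2
    ring_nf
  have hc := Crs_cos_int m
  have hs := Crs_sin_int m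
  rw [← he] at hc
  have hee : e * e = 1 := by
    rw [he]
    split_ifs <;> norm_num
  have hσσ : σ * σ = 1 := by
    rcases hσ with h | h <;> rw [h] <;> norm_num
  have hes : e * σ = 1 ∨ e * σ = -1 := by
    have : e = 1 ∨ e = -1 := by
      rw [he]
      split_ifs <;> simp
    rcases this with h | h <;> rcases hσ with h' | h' <;> rw [h, h'] <;> norm_num
  rcases hes with h | h
  · have e3 : al (-(e * σ) * (3 * k / 2) * v) = Real.pi * (1 - TW.chi (24 * k * v)) := by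
      unfold al
      rw [h, ← Crs_chi_neg]
      congr 2
      ring
    have e4 : ang k c (m / (2 * k) + v) =
        Real.pi * m - al (-(e * σ) * (3 * k / 2) * v) := by
      rw [e2, e3]
      ring
    have hσe : σ = e := by
      have : σ = e * (e * σ) := by rw [← mul_assoc, hee, one_mul]
      rw [this, h, mul_one]
    rw [e4, Real.cos_sub, Real.sin_sub, hc, hs, hσe]
    constructor <;> ring
  · have e3 : al (-(e * σ) * (3 * k / 2) * v) = Real.pi * TW.chi (24 * k * v) := by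
      unfold al
      rw [h]
      congr 2
      ring
    have e4 : ang k c (m / (2 * k) + v) =
        Real.pi * m + (al (-(e * σ) * (3 * k / 2) * v) - Real.pi) := by
      rw [e2, e3]
      ring
    have hσe : σ = -e := by
      have : σ = e * (e * σ) := by rw [← mul_assoc, hee, one_mul]
      rw [this, h]
      ring
    rw [e4, Real.cos_add, Real.sin_add, Real.cos_sub_pi, Real.sin_sub_pi, hc, hs, hσe]
    constructor <;> ring

/-- The germ of the new foliation at a special crossing, in the coordinates `ph`. PROOF: `H.w i` at the point `R z`, `R w = (1/2 + e ρ w.2.1, -(e σ) (3k/2) (w.1 - m/(2k)), 5/8 + σ ρ w.2.2)`, which is in `XW` (`|b| < 3/16`;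
`rt > 25/9` because `‖t‖ ≥ 11/32`); `OrdEq.comp_cont`; near `z` we have `ph (w.1, w.2) = B.N i (cov (R w))`; `PPar.E0_z` (PA/E0a; `ξ = e ρ u`, `τ = σ ρ s`, at most `9/288 = 1/32`), `ang_cross`: `E0 (R w) = cz + κz ρ (rotC (-ang) w.2).2`, `OrdEq.of_comp`. -/
theorem cross_germ {M₀ : Type} [TopologicalSpace M₀] {A : Type} {B : Boxes M₀ A} {P : A → PPar}
    {S : A → Str} {F₀ G : LS.PreFol M₀} (H : New B P S F₀ G) {ph : Cylinder → M₀} {i : A} {k : ℕ}
    (hk : 0 < k) (c m : ℤ) {σ e ρ : ℝ} (hσ : σ = 1 ∨ σ = -1) (he : e = if Even m then 1 else -1)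
    (hρ : 0 < ρ) (hρ' : ρ ≤ 1 / 288)
    (hph : ∀ v u s : ℝ, |v| < 1 / (8 * k) → |u| < 9 → |s| < 9 →
      ph (((m / (2 * k) + v : ℝ) : Ci), (u, s)) =
        B.N i (cov (1 / 2 + e * ρ * u, -(e * σ) * (3 * k / 2) * v, 5 / 8 + σ * ρ * s)))
    {z : ℝ × (ℝ × ℝ)} (hz : |z.1 - m / (2 * k)| < 1 / (8 * k)) (hz1 : |z.2.1| < 9)
    (hz2 : |z.2.2| < 9) {c' : OpenPartialHomeomorph M₀ ((ℝ × ℝ) × ℝ)} (hc' : c' ∈ G.charts)
    (hs : ph ((z.1 : Ci), z.2) ∈ c'.source) :
    OrdEq z (fun w => (c' (ph ((w.1 : Ci), w.2))).2) (fun w => (rotC (-ang k c w.1) w.2).2) := by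
  have hk' : (0 : ℝ) < k := by exact_mod_cast hk
  obtain ⟨R, hR⟩ : ∃ R : ℝ × (ℝ × ℝ) → ℝ × ℝ × ℝ, R = fun w =>
      (1 / 2 + e * ρ * w.2.1, -(e * σ) * (3 * k / 2) * (w.1 - m / (2 * k)),
        5 / 8 + σ * ρ * w.2.2) := ⟨_, rfl⟩
  have hRc : Continuous R := by
    rw [hR]
    fun_prop
  have he1 : |e| = 1 := by
    rw [he]
    split_ifs <;> simp
  have hσ1 : |σ| = 1 := by
    rcases hσ with h | h <;> rw [h] <;> simp
  -- the estimates
  have hest : ∀ w : ℝ × (ℝ × ℝ), |w.2.1| < 9 → |w.2.2| < 9 →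
      |e * ρ * w.2.1| ≤ 1 / 32 ∧ |σ * ρ * w.2.2| ≤ 1 / 32 := by
    intro w h1 h2
    rw [abs_mul, abs_mul, abs_mul, abs_mul, he1, hσ1, abs_of_pos hρ]
    constructor <;> nlinarith [abs_nonneg w.2.1, abs_nonneg w.2.2]
  -- the values of `ph`
  have hphR : ∀ w : ℝ × (ℝ × ℝ), |w.1 - m / (2 * k)| < 1 / (8 * k) → |w.2.1| < 9 →
      |w.2.2| < 9 → ph ((w.1 : Ci), w.2) = B.N i (cov (R w)) := by
    intro w h1 h2 h3
    have := hph (w.1 - m / (2 * k)) w.2.1 w.2.2 h1 h2 h3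
    rw [add_sub_cancel] at this
    rw [hR]
    exact this
  -- the point is in the slab
  have hXW : R z ∈ PA.XW := by
    obtain ⟨-, h2⟩ := hest z hz1 hz2
    obtain ⟨h3, h4⟩ := abs_le.1 h2
    rw [hR]
    refine ⟨?_, ?_, ?_, ?_⟩
    · show |-(e * σ) * (3 * k / 2) * (z.1 - m / (2 * k))| < 3 / 16
      rw [abs_mul, abs_mul, abs_neg, abs_mul, he1, hσ1,
        abs_of_pos (by positivity : (0 : ℝ) < 3 * k / 2)]
      rw [lt_div_iff₀ (by positivity)] at hz
      nlinarith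
    · show 0 < 5 / 8 + σ * ρ * z.2.2
      linarith
    · show 5 / 8 + σ * ρ * z.2.2 < 1
      linarith
    · show 25 / 9 < TW.rt _
      unfold TW.rt
      have h5 : 11 / 32 ≤ ‖((5 / 8 + σ * ρ * z.2.2 : ℝ) : Ci)‖ := by
        have h6 : ‖((5 / 8 + σ * ρ * z.2.2 : ℝ) : Ci)‖ =
            |5 / 8 + σ * ρ * z.2.2 - round (5 / 8 + σ * ρ * z.2.2)| := UnitAddCircle.norm_eq
        have h7 : round (5 / 8 + σ * ρ * z.2.2) = 1 := by
          rw [round_eq, Int.floor_eq_iff]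
          push_cast
          constructor <;> linarith
        rw [h6, h7, Int.cast_one, abs_sub_comm]
        exact (show (11 / 32 : ℝ) ≤ 1 - (5 / 8 + σ * ρ * z.2.2) by linarith).trans
          (le_abs_self _)
      show 25 / 9 < 256 * (‖((-(e * σ) * (3 * k / 2) * (z.1 - m / (2 * k)) : ℝ) : Ci)‖ ^ 2 +
        ‖((5 / 8 + σ * ρ * z.2.2 : ℝ) : Ci)‖ ^ 2)
      nlinarith [sq_nonneg ‖((-(e * σ) * (3 * k / 2) * (z.1 - m / (2 * k)) : ℝ) : Ci)‖]
  -- the germ
  have h1 := (H.w i (R z) hXW c' hc' (by rw [← hphR z hz hz1 hz2]; exact hs)).comp_cont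
    hRc.continuousAt
  -- near `z`
  have hev : ∀ᶠ w : ℝ × (ℝ × ℝ) in 𝓝 z, |w.1 - m / (2 * k)| < 1 / (8 * k) ∧ |w.2.1| < 9 ∧ |w.2.2| < 9 := by
    have c1 : ContinuousAt (fun w : ℝ × (ℝ × ℝ) => |w.1 - m / (2 * k)|) z := by fun_prop
    have c2 : ContinuousAt (fun w : ℝ × (ℝ × ℝ) => |w.2.1|) z := by fun_prop
    have c3 : ContinuousAt (fun w : ℝ × (ℝ × ℝ) => |w.2.2|) z := by fun_prop
    filter_upwards [c1.eventually (gt_mem_nhds hz), c2.eventually (gt_mem_nhds hz1),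
      c3.eventually (gt_mem_nhds hz2)] with w a1 a2 a3
    exact ⟨a1, a2, a3⟩
  have h2 : OrdEq z (fun w => (c' (ph ((w.1 : Ci), w.2))).2) ((P i).E0 ∘ R) := by
    refine h1.congr ?_ (Eventually.of_forall fun _ => rfl)
    filter_upwards [hev] with w hw
    show (c' (ph ((w.1 : Ci), w.2))).2 = (c' (B.N i (cov (R w)))).2
    rw [hphR w hw.1 hw.2.1 hw.2.2]
  refine h2.trans (OrdEq.of_comp (fun x => (P i).cz + (P i).κz * ρ * x) ?_ ?_).symm
  · intro x y hxy
    have := (P i).κz_pos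
    have h3 : (P i).κz * ρ * x < (P i).κz * ρ * y :=
      mul_lt_mul_of_pos_left hxy (by positivity)
    show (P i).cz + (P i).κz * ρ * x < (P i).cz + (P i).κz * ρ * y
    linarith
  · filter_upwards [hev] with w hw
    obtain ⟨h3, h4⟩ := hest w hw.2.1 hw.2.2
    obtain ⟨h5, h6⟩ := ang_cross hk c m (v := w.1 - m / (2 * k)) hσ he hw.1
    rw [add_sub_cancel] at h5 h6
    show (P i).E0 (R w) = (P i).cz + (P i).κz * ρ * (rotC (-ang k c w.1) w.2).2
    rw [hR]
    show (P i).E0 (1 / 2 + e * ρ * w.2.1, -(e * σ) * (3 * k / 2) * (w.1 - m / (2 * k)),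
        5 / 8 + σ * ρ * w.2.2) = _
    rw [PPar.E0_z _ h3 (h4.trans (by norm_num))]
    unfold rotC
    show _ = (P i).cz + (P i).κz * ρ * (w.2.1 * Real.sin (-ang k c w.1) +
      w.2.2 * Real.cos (-ang k c w.1))
    rw [Real.sin_neg, Real.cos_neg, h5, h6]
    ring

end Pool.Agent.H.MP_1611f1_gt.PZ
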