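import Pool.Agent.H.MP_1611f1_gt.PZ.Pl

/-!
Extension of homeomorphisms of `S¹ × ℝ²` with compact support to a manifold.
-/

namespace Pool.Agent.H.MP_1611f1_gt.PZ

open Topology Set Filter
open Pool.Agent.H.MP_1611f1_gt.BR.U (Ci)
open Pool.Agent.H.MP_1611f1_gt.LG (Cylinder)

open Classical in
/-- the glued map -/
private noncomputable def Ext_g {M I : Type*} (N : I → Cylinder → M) (Φ : I → Cylinder → Cylinder)
    (y : M) : M :=
  if h : ∃ j z, N j z = y then N h.choose (Φ h.choose h.choose_spec.choose) else y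

private theorem Ext_at {M I : Type*} {N : I → Cylinder → M} (inj : ∀ j, Function.Injective (N j))
    (disj : ∀ j k z w, N j z = N k w → j = k) (Φ : I → Cylinder → Cylinder) (j : I)
    (z : Cylinder) : Ext_g N Φ (N j z) = N j (Φ j z) := by
  have key : ∀ j' z', N j' z' = N j z → N j' (Φ j' z') = N j (Φ j z) := by
    intro j' z' e
    obtain rfl := disj _ _ _ _ e
    obtain rfl := inj _ e
    rfl
  have h : ∃ j' z', N j' z' = N j z := ⟨j, z, rfl⟩
  unfold Ext_g
  rw [dif_pos h]
  exact key _ _ h.choose_spec.choose_spec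

private theorem Ext_off {M I : Type*} {N : I → Cylinder → M} (Φ : I → Cylinder → Cylinder) {y : M}
    (hy : ∀ j, y ∉ range (N j)) : Ext_g N Φ y = y := by
  unfold Ext_g
  rw [dif_neg]
  rintro ⟨j, z, h⟩
  exact hy j ⟨z, h⟩

private theorem Ext_cont {M : Type*} [TopologicalSpace M] [T2Space M] {I : Type*} [Finite I]
    {N : I → Cylinder → M} (emb : ∀ j, IsOpenEmbedding (N j))
    (disj : ∀ j k z w, N j z = N k w → j = k) {Φ : I → Cylinder → Cylinder}
    (hc : ∀ j, Continuous (Φ j))
    (hΦ : ∀ j (z : Cylinder), 9 ≤ |z.2.1| ∨ 9 ≤ |z.2.2| → Φ j z = z) :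
    Continuous (Ext_g N Φ) := by
  rw [continuous_iff_continuousAt]
  intro y
  by_cases hy : ∃ j z, N j z = y
  · obtain ⟨j, z, rfl⟩ := hy
    rw [← (emb j).continuousAt_iff]
    have h1 : Ext_g N Φ ∘ N j = N j ∘ Φ j := by
      funext z
      exact Ext_at (fun j => (emb j).injective) disj Φ j z
    rw [h1]
    exact ((emb j).continuous.comp (hc j)).continuousAt
  · have hcomp : IsCompact (⋃ j, N j '' ((univ : Set (AddCircle (1 : ℝ))) ×ˢ
        (Icc (-9 : ℝ) 9 ×ˢ Icc (-9 : ℝ) 9))) := by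
      refine isCompact_iUnion fun j => ?_
      exact (isCompact_univ.prod (isCompact_Icc.prod isCompact_Icc)).image (emb j).continuous
    have hy' : y ∈ (⋃ j, N j '' ((univ : Set (AddCircle (1 : ℝ))) ×ˢ
        (Icc (-9 : ℝ) 9 ×ˢ Icc (-9 : ℝ) 9)))ᶜ := by
      intro h
      obtain ⟨j, z, _, hz⟩ := mem_iUnion.1 h
      exact hy ⟨j, z, hz⟩
    have hev : Ext_g N Φ =ᶠ[𝓝 y] id := by
      filter_upwards [hcomp.isClosed.isOpen_compl.mem_nhds hy'] with y' hy1
      by_cases h : ∃ j z, N j z = y'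
      · obtain ⟨j, z, rfl⟩ := h
        rw [Ext_at (fun j => (emb j).injective) disj Φ j z, id]
        congr 1
        refine hΦ j z ?_
        by_contra hn
        rw [not_or, not_le, not_le] at hn
        refine hy1 (mem_iUnion.2 ⟨j, z, ⟨mem_univ _, ?_, ?_⟩, rfl⟩)
        · exact ⟨by linarith [(abs_lt.1 hn.1).1], by linarith [(abs_lt.1 hn.1).2]⟩
        · exact ⟨by linarith [(abs_lt.1 hn.2).1], by linarith [(abs_lt.1 hn.2).2]⟩
      · exact Ext_off Φ fun j hj => h ⟨j, hj⟩
    exact continuousAt_id.congr hev.symm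

private theorem Ext_inv {M I : Type*} {N : I → Cylinder → M} (inj : ∀ j, Function.Injective (N j))
    (disj : ∀ j k z w, N j z = N k w → j = k) {Φ Ψ : I → Cylinder → Cylinder}
    (h : ∀ j z, Ψ j (Φ j z) = z) (y : M) : Ext_g N Ψ (Ext_g N Φ y) = y := by
  by_cases hy : ∃ j z, N j z = y
  · obtain ⟨j, z, rfl⟩ := hy
    rw [Ext_at inj disj, Ext_at inj disj, h]
  · have h1 : ∀ j, y ∉ range (N j) := fun j hj => hy ⟨j, hj⟩
    rw [Ext_off Φ h1, Ext_off Ψ h1]

/-- PROOF. Put `g y = N j (Φ j z)` if `y = N j z`, `g y = y` if `y` is in no `range (N j)` (well defined by `disj` and injectivity; `Classical`). Continuity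
at `y = N j z`: `range (N j)` is open and `g` is continuous there (`(emb j).continuousAt_iff` or: `g ∘ N j = N j ∘ Φ j`, `IsOpenEmbedding`).
At other points: the sets `N j '' {|u| ≤ 9, |s| ≤ 9}` are compact (`Ci` is compact), so closed, finitely many; `g` is the identity off their union.
The inverse is the same construction for `Φ j .symm` (which has the same support). -/
theorem exists_ext {M : Type*} [TopologicalSpace M] [T2Space M] {I : Type*} [Finite I]
    {N : I → Cylinder → M} (emb : ∀ j, IsOpenEmbedding (N j))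
    (disj : ∀ j k z w, N j z = N k w → j = k) (Φ : I → (Cylinder ≃ₜ Cylinder))
    (hΦ : ∀ j (z : Cylinder), 9 ≤ |z.2.1| ∨ 9 ≤ |z.2.2| → Φ j z = z) :
    ∃ g : M ≃ₜ M, (∀ j z, g (N j z) = N j (Φ j z)) ∧ ∀ y, (∀ j, y ∉ range (N j)) → g y = y := by
  have inj : ∀ j, Function.Injective (N j) := fun j => (emb j).injective
  have hΨ : ∀ j (z : Cylinder), 9 ≤ |z.2.1| ∨ 9 ≤ |z.2.2| → (Φ j).symm z = z := fun j z hz =>
    (Φ j).symm_apply_eq.2 (hΦ j z hz).symm
  refine ⟨{ toFun := Ext_g N fun j => Φ j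
            invFun := Ext_g N fun j => (Φ j).symm
            left_inv := Ext_inv inj disj fun j z => (Φ j).symm_apply_apply z
            right_inv := Ext_inv inj disj fun j z => (Φ j).apply_symm_apply z
            continuous_toFun := Ext_cont emb disj (fun j => (Φ j).continuous) hΦ
            continuous_invFun := Ext_cont emb disj (fun j => (Φ j).symm.continuous) hΨ },
    fun j z => Ext_at inj disj (fun j => Φ j) j z, fun y hy => Ext_off (fun j => Φ j) hy⟩

end Pool.Agent.H.MP_1611f1_gt.PZ
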