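import Pool.Agent.H.MP_1611f1_gt.PZ.Leaf

/-!
Leaf curves in a turning frame, from the germs of the foliation.
-/

namespace Pool.Agent.H.MP_1611f1_gt.PZ

open Topology Set Filter
open Pool.Agent.H.MP_1611f1_gt.BR.U (Ci)
open Pool.Agent.H.MP_1611f1_gt.TW (sq)
open Pool.Agent.H.MP_1611f1_gt.LG (Cylinder LeafCurve)

variable {M : Type*} [TopologicalSpace M]

private theorem LeafB_up {g : ℝ ≃o ℝ} {z : ℝ} (h : z < g z) (n : ℕ) : z < (g ^ (n + 1)) z := by
  induction n with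
  | zero =>
    rw [zero_add, pow_one]
    exact h
  | succ n ih =>
    rw [pow_succ', RelIso.mul_apply]
    exact h.trans (g.strictMono ih)

private theorem LeafB_dn {g : ℝ ≃o ℝ} {z : ℝ} (h : g z < z) (n : ℕ) : (g ^ (n + 1)) z < z := by
  induction n with
  | zero =>
    rw [zero_add, pow_one]
    exact h
  | succ n ih =>
    rw [pow_succ', RelIso.mul_apply]
    exact (g.strictMono ih).trans h

private theorem LeafB_inv_dn {g : ℝ ≃o ℝ} {z : ℝ} (h : z < g z) : g⁻¹ z < z := by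
  have h1 := (g⁻¹).strictMono h
  rwa [RelIso.inv_apply_self] at h1

private theorem LeafB_inv_up {g : ℝ ≃o ℝ} {z : ℝ} (h : g z < z) : z < g⁻¹ z := by
  have h1 := (g⁻¹).strictMono h
  rwa [RelIso.inv_apply_self] at h1

private theorem LeafB_zpow {ψ : ℝ → ℝ → ℝ} {h₀ : ℝ ≃o ℝ} (ψ_add : ∀ r s, ψ (r + 1) s = h₀ (ψ r s))
    (n : ℤ) (r t : ℝ) : ψ (r + n) t = (h₀ ^ n) (ψ r t) := by
  induction n with
  | zero =>
    rw [Int.cast_zero, add_zero, zpow_zero]
    rfl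
  | succ n ih =>
    rw [add_comm (n : ℤ) 1, zpow_one_add, RelIso.mul_apply, ← ih, ← ψ_add]
    congr 1
    push_cast
    ring
  | pred n ih =>
    have h1 : ψ (r + ((-(n : ℤ) - 1 : ℤ) : ℝ) + 1) t = h₀ (ψ (r + ((-(n : ℤ) - 1 : ℤ) : ℝ)) t) :=
      ψ_add _ _
    have h2 : r + ((-(n : ℤ) - 1 : ℤ) : ℝ) + 1 = r + ((-(n : ℤ) : ℤ) : ℝ) := by
      push_cast
      ring
    rw [h2, ih] at h1
    have h3 : h₀ ^ (-(n : ℤ)) = h₀ * h₀ ^ (-(n : ℤ) - 1) := by
      rw [← zpow_one_add]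
      congr 1
      ring
    rw [h3, RelIso.mul_apply] at h1
    exact (h₀.injective h1).symm

/-- PROOF. `emb`: `turn_emb`. `hol`: `δ = 1`, `Γ (θ, s) = ψ (kap θ) (sq s)`, `h = h₀ ^ deg` (as an element of the group `ℝ ≃o ℝ`; `ψ (kap θ + deg) = h₀ ^ deg ∘ ψ (kap θ)` by induction on `deg`). The order
statement: `germ` at `z = (θ, rotC (A θ) (sq u, sq s))`, composed with the continuous map `w ↦ (w.1, rotC (A w.1) (sq w.2.1, sq w.2.2))` (`OrdEq.comp_cont`), `RR_eq`, `rotC_add`: `rotC (-A θ) (rotC (A θ) v) = v`; unfold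
`OrdEq` (`Filter.eventually_prod_self_iff` or the form in Fib.lean) to get the set `W`. Last part: for `0 < z < δ₁` we have `z < h₀ z`, so `z < h₀ ^ n z` for `n ≥ 1` (monotone iteration) and `h₀ ^ (-n) z < z`; for `-δ₁ < z < 0` the
opposite; choose `z = ± min (ε / 2) (δ₁ / 2)` according to the signs of `x` and `deg`. -/
theorem leaf_of_germ {F : Foliation M} {N : Cylinder → M} {A : ℝ → ℝ} {k : ℤ} (hc : Continuous A)
    (hA : ∀ θ, A (θ + 1) = A θ + 2 * Real.pi * k) (hN : IsOpenEmbedding (box9.domRestrict N))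
    {kap : ℝ → ℝ} (kap_cont : Continuous kap) {deg : ℤ} (deg_ne : deg ≠ 0)
    (kap_add : ∀ θ, kap (θ + 1) = kap θ + deg) {ψ : ℝ → ℝ → ℝ}
    (ψ_cont : Continuous fun p : ℝ × ℝ => ψ p.1 p.2) (ψ_mono : ∀ r, StrictMono (ψ r))
    (ψ_zero : ∀ r, ψ r 0 = 0) {h₀ : ℝ ≃o ℝ} (ψ_add : ∀ r s, ψ (r + 1) s = h₀ (ψ r s))
    {δ₁ : ℝ} (hδ₁ : 0 < δ₁) (h_pos : ∀ z, 0 < z → z < δ₁ → z < h₀ z)
    (h_neg : ∀ z, -δ₁ < z → z < 0 → h₀ z < z)
    (germ : ∀ z : ℝ × (ℝ × ℝ), |z.2.1| < 9 → |z.2.2| < 9 → ∀ c ∈ F.charts,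
      N ((z.1 : Ci), z.2) ∈ c.source →
        OrdEq z (fun w => (c (N ((w.1 : Ci), w.2))).2)
          (fun w => ψ (kap w.1) (rotC (-A w.1) w.2).2))
    {x : ℝ} (hx : x ≠ 0) : LeafCurve F (turn A N) x := by
  have hsq0 : TW.sq 0 = 0 := TW.sq_id (by rw [abs_zero]; norm_num)
  refine ⟨turn_emb hc hA hN, 1, fun p => ψ (kap p.1) (TW.sq p.2), h₀ ^ deg, zero_lt_one, ?_, ?_, ?_,
    ?_, ?_, ?_⟩
  · exact (ψ_cont.comp ((kap_cont.comp continuous_fst).prodMk
      (TW.sq_cont.comp continuous_snd))).continuousOn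
  · exact fun θ => ((ψ_mono (kap θ)).comp TW.sq_mono).strictMonoOn _
  · intro θ
    simp only
    rw [hsq0, ψ_zero]
  · intro θ s _
    simp only
    rw [kap_add]
    exact LeafB_zpow ψ_add deg (kap θ) (TW.sq s)
  · intro θ u s _ c hcF hsrc
    obtain ⟨R, hR⟩ : ∃ R : ℝ × (ℝ × ℝ) → ℝ × (ℝ × ℝ),
        R = fun w => (w.1, rotC (A w.1) (TW.sq w.2.1, TW.sq w.2.2)) := ⟨_, rfl⟩
    have hRc : Continuous R := by
      rw [hR]
      refine continuous_fst.prodMk (rotC_cont.comp ((hc.comp continuous_fst).prodMk ?_))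
      exact (TW.sq_cont.comp (continuous_fst.comp continuous_snd)).prodMk
        (TW.sq_cont.comp (continuous_snd.comp continuous_snd))
    have hturn : ∀ w : ℝ × (ℝ × ℝ), turn A N ((w.1 : Ci), w.2) = N (((R w).1 : Ci), (R w).2) := by
      intro w
      unfold turn
      rw [RR_eq hA, hR]
    have hmem := turn_mem A ((θ : Ci), (u, s))
    rw [RR_eq hA] at hmem
    have hg := germ (R (θ, (u, s))) (by rw [hR]; exact hmem.1) (by rw [hR]; exact hmem.2) c hcF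
      (by rw [← hturn]; exact hsrc)
    obtain ⟨W, hW, hW'⟩ := OrdEq.comp_cont hRc.continuousAt hg
    refine ⟨W, hW, fun w hw w' hw' => ?_⟩
    have h1 := hW' w hw w' hw'
    have h2 : ∀ w : ℝ × (ℝ × ℝ), (rotC (-A (R w).1) (R w).2).2 = TW.sq w.2.2 := by
      intro w
      rw [hR]
      simp only
      rw [rotC_add, neg_add_cancel, rotC_zero]
    have h3 : ∀ w : ℝ × (ℝ × ℝ), (R w).1 = w.1 := by
      intro w
      rw [hR]
    simp only [Function.comp_apply, h2] at h1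
    rw [← hturn, ← hturn, h3, h3] at h1
    exact h1
  · intro ε hε
    obtain ⟨m, hm⟩ : ∃ m, m = min (ε / 2) (δ₁ / 2) := ⟨_, rfl⟩
    have hm0 : 0 < m := by
      rw [hm]
      exact lt_min (by linarith) (by linarith)
    have hmε : m < ε := by
      rw [hm]
      exact lt_of_le_of_lt (min_le_left _ _) (by linarith)
    have hmδ : m < δ₁ := by
      rw [hm]
      exact lt_of_le_of_lt (min_le_right _ _) (by linarith)
    have hp : m < h₀ m := h_pos m hm0 hmδ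
    have hn : h₀ (-m) < -m := h_neg (-m) (by linarith) (by linarith)
    have hab : |m| < ε := by rwa [abs_of_pos hm0]
    have hab' : |-m| < ε := by rwa [abs_neg]
    have hup : ∃ z, |z| < ε ∧ z < (h₀ ^ deg) z := by
      rcases lt_trichotomy deg 0 with hd | hd | hd
      · obtain ⟨n, hn'⟩ : ∃ n : ℕ, deg = -((n + 1 : ℕ) : ℤ) := ⟨(-deg).toNat - 1, by omega⟩
        refine ⟨-m, hab', ?_⟩
        rw [hn', zpow_neg, zpow_natCast, ← inv_pow]
        exact LeafB_up (LeafB_inv_up hn) n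
      · exact absurd hd deg_ne
      · obtain ⟨n, hn'⟩ : ∃ n : ℕ, deg = ((n + 1 : ℕ) : ℤ) := ⟨deg.toNat - 1, by omega⟩
        refine ⟨m, hab, ?_⟩
        rw [hn', zpow_natCast]
        exact LeafB_up hp n
    have hdn : ∃ z, |z| < ε ∧ (h₀ ^ deg) z < z := by
      rcases lt_trichotomy deg 0 with hd | hd | hd
      · obtain ⟨n, hn'⟩ : ∃ n : ℕ, deg = -((n + 1 : ℕ) : ℤ) := ⟨(-deg).toNat - 1, by omega⟩
        refine ⟨m, hab, ?_⟩
        rw [hn', zpow_neg, zpow_natCast, ← inv_pow]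
        exact LeafB_dn (LeafB_inv_dn hp) n
      · exact absurd hd deg_ne
      · obtain ⟨n, hn'⟩ : ∃ n : ℕ, deg = ((n + 1 : ℕ) : ℤ) := ⟨deg.toNat - 1, by omega⟩
        refine ⟨-m, hab', ?_⟩
        rw [hn', zpow_natCast]
        exact LeafB_dn hn n
    rcases lt_or_gt_of_ne hx with hx0 | hx0
    · obtain ⟨z, hz, hz'⟩ := hdn
      exact ⟨z, hz, mul_pos_of_neg_of_neg hx0 (by linarith)⟩
    · obtain ⟨z, hz, hz'⟩ := hup
      exact ⟨z, hz, mul_pos hx0 (by linarith)⟩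

end Pool.Agent.H.MP_1611f1_gt.PZ
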