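import Pool.Agent.H.MP_1611f1_gt.PZ.LfD
import Pool.Agent.H.MP_1611f1_gt.PZ.LeafB
import Pool.Agent.H.MP_1611f1_gt.LS.UpE

/-!
Leaf curves of the new foliation `G`.
-/

namespace Pool.Agent.H.MP_1611f1_gt.PZ

open Topology Set Filter
open Pool.Agent.H.MP_1611f1_gt.BR.U (Ci)
open Pool.Agent.H.MP_1611f1_gt.LG (Cylinder LeafCurve)

/-- The foliation `G` of the complement of `K` near a leaf curve, in the coordinates `ph`. -/
structure Gm {M₀ : Type} [TopologicalSpace M₀] (G : LS.PreFol M₀) (K : Set M₀)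
    (ph : Cylinder → M₀) (k : ℕ) where
  emb : IsOpenEmbedding (box9.domRestrict ph)
  c : ℤ
  kap : ℝ → ℝ
  kap_cont : Continuous kap
  deg : ℤ
  deg_ne : deg ≠ 0
  kap_add : ∀ θ, kap (θ + 1) = kap θ + deg
  ψ : ℝ → ℝ → ℝ
  ψ_cont : Continuous fun p : ℝ × ℝ => ψ p.1 p.2
  ψ_mono : ∀ r, StrictMono (ψ r)
  ψ_zero : ∀ r, ψ r 0 = 0
  h₀ : ℝ ≃o ℝ
  ψ_add : ∀ r s, ψ (r + 1) s = h₀ (ψ r s)
  δ₁ : ℝ
  δ₁_pos : 0 < δ₁
  h_pos : ∀ z, 0 < z → z < δ₁ → z < h₀ z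
  h_neg : ∀ z, -δ₁ < z → z < 0 → h₀ z < z
  notK : ∀ z ∈ box9, ph z ∉ K
  germ : ∀ z : ℝ × (ℝ × ℝ), |z.2.1| < 9 → |z.2.2| < 9 → ∀ c' ∈ G.charts,
    ph ((z.1 : Ci), z.2) ∈ c'.source →
      OrdEq z (fun w => (c' (ph ((w.1 : Ci), w.2))).2)
        (fun w => ψ (kap w.1) (rotC (-ang k c w.1) w.2).2)

/-- PROOF: `leaf_of_germ` for `N`, `A = ang k c` (`ang_cont`, `ang_add`). `hN`: `p ∘ box9.domRestrict N = box9.domRestrict ph`, so `box9.domRestrict N` is an open embedding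
(`IsOpenEmbedding.of_comp`). `germ`: a chart `c₁` of `F'` comes from a chart `c'` of `G` (`LS.pullCharts`), `c₁ (N z) = c' (p (N z)) = c' (ph z)` near `z` (the points near `z` are in
`box9`, and in the source); `OrdEq.congr`. -/
theorem Gm.leaf {M₀ M₁ : Type} [TopologicalSpace M₀] [TopologicalSpace M₁] {G : LS.PreFol M₀}
    {K : Set M₀} {ph : Cylinder → M₀} {k : ℕ} (L : Gm G K ph k) {p : M₁ → M₀}
    (hp : IsOpenEmbedding p) {F' : Foliation M₁} (hF' : F'.charts = LS.pullCharts p G)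
    {N : Cylinder → M₁} (hN : ∀ z ∈ box9, p (N z) = ph z) {x : ℝ} (hx : x ≠ 0) :
    LeafCurve F' (turn (ang k L.c) N) x := by
  have hcomp : p ∘ box9.domRestrict N = box9.domRestrict ph := by
    funext z
    exact hN z.1 z.2
  have hNe : IsOpenEmbedding (box9.domRestrict N) := by
    refine IsOpenEmbedding.of_comp _ hp ?_
    rw [hcomp]
    exact L.emb
  refine leaf_of_germ (ang_cont k L.c) (ang_add k L.c) hNe L.kap_cont L.deg_ne L.kap_add
    L.ψ_cont L.ψ_mono L.ψ_zero L.ψ_add L.δ₁_pos L.h_pos L.h_neg ?_ hx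
  intro z hz1 hz2 c₁ hc₁ hsrc
  rw [hF'] at hc₁
  obtain ⟨c', hc', hs, hv⟩ := hc₁
  have hzb : (((z.1 : Ci), z.2) : Cylinder) ∈ box9 := ⟨hz1, hz2⟩
  have hsrc' : ph ((z.1 : Ci), z.2) ∈ c'.source := by
    have h1 := hsrc
    rw [hs, mem_preimage, hN _ hzb] at h1
    exact h1
  refine OrdEq.congr (L.germ z hz1 hz2 c' hc' hsrc') ?_ (Eventually.of_forall fun _ => rfl)
  have hq : Continuous fun w : ℝ × (ℝ × ℝ) => (((w.1 : Ci), w.2) : Cylinder) :=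
    (BR.U.NCov_coe_loc.continuous.comp continuous_fst).prodMk continuous_snd
  have hNc : ContinuousOn N box9 := continuousOn_iff_continuous_domRestrict.2 hNe.continuous
  have hO : IsOpen (box9 ∩ N ⁻¹' c₁.source) := hNc.isOpen_inter_preimage Lf_box c₁.open_source
  filter_upwards [(hO.preimage hq).mem_nhds ⟨hzb, hsrc⟩] with w hw
  have h2 := hv _ hw.2
  rw [hN _ hw.1] at h2
  exact h2

end Pool.Agent.H.MP_1611f1_gt.PZ
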