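import Pool.Agent.H.MP_1611f1_gt.PZ.Lf

/-!
The curves do not meet the neighbourhoods of the tubes.
-/

namespace Pool.Agent.H.MP_1611f1_gt.PZ

open Topology Set Filter
open Pool.Agent.H.MP_1611f1_gt.BR.U (Ci)
open Pool.Agent.H.MP_1611f1_gt.TW (cov KK)
open Pool.Agent.H.MP_1611f1_gt.LG (Cylinder)
open Pool.Agent.H.MP_1611f1_gt.PA (PPar Str Boxes Old New CX)

variable {M₀ : Type} [TopologicalSpace M₀] {A : Type} {B : Boxes M₀ A} {P : A → PPar}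
  {S : A → Str} {F₀ G : LS.PreFol M₀} {ph : Cylinder → M₀} {k : ℕ}

theorem K8_CX : K8 ⊆ CX := fun _ hz => Or.inl hz

private theorem S8_surj (x : Ci) : ∃ θ : ℝ, (θ : Ci) = x := QuotientAddGroup.mk_surjective x

private theorem S8_nrm {b : ℝ} (h : 3 / 8 < b) (h' : b < 5 / 8) : 3 / 8 ≤ ‖(b : Ci)‖ := by
  by_contra hc
  rw [not_le, UnitAddCircle.norm_eq, abs_lt] at hc
  have h1 : (0 : ℝ) < round b := by linarith
  have h2 : (round b : ℝ) < 1 := by linarith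
  have h3 : 0 < round b := by exact_mod_cast h1
  have h4 : round b < 1 := by exact_mod_cast h2
  omega

private theorem S8_nrm_le (b : ℝ) : ‖(b : Ci)‖ ≤ |b| := by
  rw [UnitAddCircle.norm_eq]
  have := round_le b 0
  rwa [Int.cast_zero, sub_zero] at this

private theorem S8_nrm_t {t : ℝ} (h : 19 / 32 ≤ t) (h' : t ≤ 21 / 32) : 11 / 32 ≤ ‖(t : Ci)‖ := by
  rw [UnitAddCircle.norm_eq]
  have h1 : round t = 1 := by
    rw [round_eq, Int.floor_eq_iff, Int.cast_one]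
    constructor <;> linarith
  rw [h1, Int.cast_one, abs_of_nonpos (by linarith)]
  linarith

private theorem S8_sgn (m : ℤ) : sgn m = 1 ∨ sgn m = -1 := by
  unfold sgn
  split_ifs
  · exact Or.inl rfl
  · exact Or.inr rfl

/-- as `Lf.notK` -/
theorem Lf.notK8 (L : Lf B F₀ ph k) : ∀ z ∈ box9, ∀ i, ph z ∉ B.N i '' K8 := by
  rintro ⟨x, u, s⟩ hz i
  have hu : |u| < 9 := hz.1
  have hs : |s| < 9 := hz.2
  obtain ⟨θ, rfl⟩ : ∃ θ : ℝ, (θ : Ci) = x := S8_surj x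
  rcases far_or k θ with h | ⟨hk, m, hm⟩
  · exact fun h1 => L.out θ (u, s) hu hs h i (image_mono K8_CX h1)
  · rintro ⟨z', hz', he⟩
    have hk' : (0 : ℝ) < k := by exact_mod_cast hk
    have h1 := L.cross hk m (θ - m / (2 * k)) u s hm hu hs
    rw [add_sub_cancel] at h1
    have hb : |-(sgn m * L.σ m) * (3 * k / 2) * (θ - m / (2 * k))| < 3 / 16 := by
      have h2 : |-(sgn m * L.σ m)| = 1 := by
        rcases S8_sgn m with e1 | e1 <;> rcases L.σ_one m with e2 | e2 <;> rw [e1, e2] <;> norm_num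
      rw [abs_mul, abs_mul, h2, one_mul, abs_of_pos (by positivity : (0 : ℝ) < 3 * k / 2)]
      calc 3 * (k : ℝ) / 2 * |θ - m / (2 * k)| < 3 * k / 2 * (1 / (8 * k)) :=
            mul_lt_mul_of_pos_left hm (by positivity)
        _ = 3 / 16 := by
            field_simp
            norm_num
    have ht : |L.σ m * L.ρ * s| ≤ 1 / 32 := by
      have h2 : |L.σ m| = 1 := by
        rcases L.σ_one m with e2 | e2 <;> rw [e2] <;> norm_num
      rw [abs_mul, abs_mul, h2, one_mul, abs_of_pos L.ρ_pos]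
      have h3 := mul_le_mul L.ρ_le hs.le (abs_nonneg s) (by norm_num)
      linarith
    obtain ⟨b, hbe⟩ : ∃ b, b = -(sgn m * L.σ m) * (3 * k / 2) * (θ - m / (2 * k)) := ⟨_, rfl⟩
    obtain ⟨t, hte⟩ : ∃ t, t = 5 / 8 + L.σ m * L.ρ * s := ⟨_, rfl⟩
    rw [← hbe, ← hte] at h1
    rw [← hbe] at hb
    obtain ⟨ht1, ht2⟩ := abs_le.1 ht
    have hnb : ‖(b : Ci)‖ < 3 / 16 := (S8_nrm_le b).trans_lt hb
    have hnt : 11 / 32 ≤ ‖(t : Ci)‖ := S8_nrm_t (by linarith) (by linarith)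
    obtain ⟨w, hw⟩ : ∃ w, w = cov (1 / 2 + sgn m * L.ρ * u, b, t) := ⟨_, rfl⟩
    have hw1 : ‖w.2.1‖ < 3 / 16 := by rw [hw]; exact hnb
    have hw2 : 11 / 32 ≤ ‖w.2.2‖ := by rw [hw]; exact hnt
    rw [← hw] at h1
    have hwV : w ∈ PA.VX := Or.inl (by linarith)
    have hwK : w ∉ K8 := by
      intro h2
      have h3 : ‖w.2.2‖ ≤ 1 / 8 := h2.2
      linarith
    rw [h1] at he
    rcases B.sep (L.bx m) i w z' hwV (PA.CX_sub (K8_CX hz')) he.symm with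
      ⟨-, h2⟩ | ⟨-, a₁, b₁, t₁, -, h3, h4, h5, -⟩ | ⟨-, a₁, b₁, t₁, -, h3, h4, -, h5⟩
    · exact hwK (h2 ▸ hz')
    · rw [h5] at hw1
      have h6 := S8_nrm h3 h4
      change ‖(b₁ : Ci)‖ < 3 / 16 at hw1
      linarith
    · rw [h5] at hw1
      have h6 := S8_nrm (b := 1 - b₁) (by linarith) (by linarith)
      change ‖((1 - b₁ : ℝ) : Ci)‖ < 3 / 16 at hw1
      linarith

/-- the circles on the walls: `b ∈ (1/8, 1/4)` -/
theorem wph_notK8 {i : A} {l ρ : ℝ} (hρ : 0 < ρ) (hρ' : ρ ≤ 1 / 288) (h1 : 1 / 8 + 9 * ρ < l)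
    (h2 : l < 1 / 4 - 9 * ρ) : ∀ z ∈ box9, ∀ j, wph B i l ρ z ∉ B.N j '' K8 := by
  rintro ⟨x, u, s⟩ hz j ⟨z', hz', he⟩
  have hu : |u| < 9 := hz.1
  have hs : |s| < 9 := hz.2
  have hu' := abs_lt.1 hu
  obtain ⟨b, hb⟩ : ∃ b, b = l + ρ * u := ⟨_, rfl⟩
  have hb1 : 1 / 8 < b := by rw [hb]; nlinarith
  have hb2 : b < 1 / 4 := by rw [hb]; nlinarith
  have hnb : ‖(b : Ci)‖ = b := by
    rw [UnitAddCircle.norm_eq]
    have h3 : round b = 0 := by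
      rw [round_eq, Int.floor_eq_iff, Int.cast_zero]
      constructor <;> linarith
    rw [h3, Int.cast_zero, sub_zero, abs_of_pos (by linarith)]
  obtain ⟨w, hw⟩ : ∃ w : Ci × Ci × Ci, w = (((1 / 4 + ρ * s : ℝ) : Ci), ((b : ℝ) : Ci), x) :=
    ⟨_, rfl⟩
  have hw1 : ‖w.2.1‖ = b := by rw [hw]; exact hnb
  have e1 : wph B i l ρ (x, (u, s)) = B.N i w := by
    rw [hw, hb]
    rfl
  have hwV : w ∈ PA.VX := Or.inl (by rw [hw1]; exact hb2)
  rw [e1] at he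
  rcases B.sep i j w z' hwV (PA.CX_sub (K8_CX hz')) he.symm with
    ⟨-, h3⟩ | ⟨-, a₁, b₁, t₁, -, h3, h4, h5, -⟩ | ⟨-, a₁, b₁, t₁, -, h3, h4, -, h5⟩
  · have h4 : ‖z'.2.1‖ ≤ 1 / 8 := hz'.1
    rw [← h3, hw1] at h4
    linarith
  · rw [h5] at hw1
    have h6 := S8_nrm h3 h4
    change ‖(b₁ : Ci)‖ = b at hw1
    linarith
  · rw [h5] at hw1
    have h6 := S8_nrm (b := 1 - b₁) (by linarith) (by linarith)
    change ‖((1 - b₁ : ℝ) : Ci)‖ = b at hw1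
    linarith

end Pool.Agent.H.MP_1611f1_gt.PZ
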