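import Pool.Agent.H.MP_1611f1_gt.PZ.Gm
import Pool.Agent.H.MP_1611f1_gt.PZ.Crs
import Pool.Agent.H.MP_1611f1_gt.PA.Lob

/-!
From `F₀` to `G`: the leaf curves.
-/

namespace Pool.Agent.H.MP_1611f1_gt.PZ

open Topology Set Filter
open Pool.Agent.H.MP_1611f1_gt.BR.U (Ci)
open Pool.Agent.H.MP_1611f1_gt.TW (cov KK)
open Pool.Agent.H.MP_1611f1_gt.LG (Cylinder)
open Pool.Agent.H.MP_1611f1_gt.PA (PPar Str Boxes Old New CX)

variable {M₀ : Type} [TopologicalSpace M₀] {A : Type} {B : Boxes M₀ A} {P : A → PPar}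
  {S : A → Str} {F₀ G : LS.PreFol M₀} {ph : Cylinder → M₀} {k : ℕ}

/-- PROOF: if not `Far k θ`, then `0 < k` and `|θ - m / (2k)| ≤ 1 / (24 k) < 1 / (8 k)` for some `m`. -/
theorem far_or (k : ℕ) (θ : ℝ) :
    Far k θ ∨ (0 < k ∧ ∃ m : ℤ, |θ - m / (2 * k)| < 1 / (8 * k)) := by
  by_contra hc
  rw [not_or] at hc
  refine hc.1 fun hk m => ?_
  by_contra hm
  rw [not_lt] at hm
  refine hc.2 ⟨hk, m, hm.trans_lt ?_⟩
  have hk' : (0 : ℝ) < k := by exact_mod_cast hk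
  exact one_div_lt_one_div_of_lt (by positivity) (by linarith)

private theorem Lf_nrm {b : ℝ} (h : 3 / 8 < b) (h' : b < 5 / 8) : 3 / 8 ≤ ‖(b : Ci)‖ := by
  by_contra hc
  rw [not_le, UnitAddCircle.norm_eq, abs_lt] at hc
  have h1 : (0 : ℝ) < round b := by linarith
  have h2 : (round b : ℝ) < 1 := by linarith
  have h3 : 0 < round b := by exact_mod_cast h1
  have h4 : round b < 1 := by exact_mod_cast h2
  omega

private theorem Lf_nrm_le (b : ℝ) : ‖(b : Ci)‖ ≤ |b| := by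
  rw [UnitAddCircle.norm_eq]
  have := round_le b 0
  rwa [Int.cast_zero, sub_zero] at this

private theorem Lf_nrm_t {t : ℝ} (h : 19 / 32 ≤ t) (h' : t ≤ 21 / 32) : 11 / 32 ≤ ‖(t : Ci)‖ := by
  rw [UnitAddCircle.norm_eq]
  have h1 : round t = 1 := by
    rw [round_eq, Int.floor_eq_iff, Int.cast_one]
    constructor <;> linarith
  rw [h1, Int.cast_one, abs_of_nonpos (by linarith)]
  linarith

private theorem Lf_sgn (m : ℤ) : sgn m = 1 ∨ sgn m = -1 := by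
  unfold sgn
  split_ifs
  · exact Or.inl rfl
  · exact Or.inr rfl

/-- PROOF: `far_or`. Far: `L.out` and `KK ⊆ CX`. Near a crossing: the point is `B.N (bx m) (cov (a, b, t))` with `|b| < 3/16` and `‖t‖ ≥ 11/32` (so it is in `VX`, not in `KK`); if it is `B.N i z'`, `z' ∈ KK` then by
`B.sep` either `i = bx m` and `z' = cov (a, b, t)`, or one of the coordinates `b` is in `(3/8, 5/8)` modulo `1`: impossible (for `z'`: `‖b‖ ≤ 1/16`, because `1 - b ∈ (3/8, 5/8)` too). -/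
theorem Lf.notK (L : Lf B F₀ ph k) : ∀ z ∈ box9, ∀ i, ph z ∉ B.N i '' KK := by
  rintro ⟨x, u, s⟩ hz i
  have hu : |u| < 9 := hz.1
  have hs : |s| < 9 := hz.2
  obtain ⟨θ, rfl⟩ : ∃ θ : ℝ, (θ : Ci) = x := Lf_surj x
  rcases far_or k θ with h | ⟨hk, m, hm⟩
  · exact fun h1 => L.out θ (u, s) hu hs h i (image_mono PA.KK_CX h1)
  · rintro ⟨z', hz', he⟩
    have hk' : (0 : ℝ) < k := by exact_mod_cast hk
    have h1 := L.cross hk m (θ - m / (2 * k)) u s hm hu hs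
    rw [add_sub_cancel] at h1
    have hb : |-(sgn m * L.σ m) * (3 * k / 2) * (θ - m / (2 * k))| < 3 / 16 := by
      have h2 : |-(sgn m * L.σ m)| = 1 := by
        rcases Lf_sgn m with e1 | e1 <;> rcases L.σ_one m with e2 | e2 <;> rw [e1, e2] <;> norm_num
      rw [abs_mul, abs_mul, h2, one_mul, abs_of_pos (by positivity : (0 : ℝ) < 3 * k / 2)]
      calc 3 * (k : ℝ) / 2 * |θ - m / (2 * k)| < 3 * k / 2 * (1 / (8 * k)) :=
            mul_lt_mul_of_pos_left hm (by positivity)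
        _ = 3 / 16 := by
            field_simp
            norm_num
    have ht : |L.σ m * L.ρ * s| ≤ 1 / 32 := by
      have h2 : |L.σ m| = 1 := by
        rcases L.σ_one m with e2 | e2 <;> rw [e2] <;> norm_num
      rw [abs_mul, abs_mul, h2, one_mul, abs_of_pos L.ρ_pos]
      have h3 := mul_le_mul L.ρ_le hs.le (abs_nonneg s) (by norm_num)
      linarith
    obtain ⟨b, hbe⟩ : ∃ b, b = -(sgn m * L.σ m) * (3 * k / 2) * (θ - m / (2 * k)) := ⟨_, rfl⟩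
    obtain ⟨t, hte⟩ : ∃ t, t = 5 / 8 + L.σ m * L.ρ * s := ⟨_, rfl⟩
    rw [← hbe, ← hte] at h1
    rw [← hbe] at hb
    obtain ⟨ht1, ht2⟩ := abs_le.1 ht
    have hnb : ‖(b : Ci)‖ < 3 / 16 := (Lf_nrm_le b).trans_lt hb
    have hnt : 11 / 32 ≤ ‖(t : Ci)‖ := Lf_nrm_t (by linarith) (by linarith)
    obtain ⟨w, hw⟩ : ∃ w, w = cov (1 / 2 + sgn m * L.ρ * u, b, t) := ⟨_, rfl⟩
    have hw1 : ‖w.2.1‖ < 3 / 16 := by rw [hw]; exact hnb
    have hw2 : 11 / 32 ≤ ‖w.2.2‖ := by rw [hw]; exact hnt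
    rw [← hw] at h1
    have hwV : w ∈ PA.VX := Or.inl (by linarith)
    have hwK : w ∉ KK := by
      intro h2
      have h3 : 256 * (‖w.2.1‖ ^ 2 + ‖w.2.2‖ ^ 2) ≤ 1 := h2
      nlinarith [sq_nonneg ‖w.2.1‖]
    rw [h1] at he
    rcases B.sep (L.bx m) i w z' hwV (PA.CX_sub (PA.KK_CX hz')) he.symm with
      ⟨-, h2⟩ | ⟨-, a₁, b₁, t₁, -, h3, h4, h5, -⟩ | ⟨-, a₁, b₁, t₁, -, h3, h4, -, h5⟩
    · exact hwK (h2 ▸ hz')
    · rw [h5] at hw1
      have h6 := Lf_nrm h3 h4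
      change ‖(b₁ : Ci)‖ < 3 / 16 at hw1
      linarith
    · rw [h5] at hw1
      have h6 := Lf_nrm (b := 1 - b₁) (by linarith) (by linarith)
      change ‖((1 - b₁ : ℝ) : Ci)‖ < 3 / 16 at hw1
      linarith

/-- PROOF: `far_or`. Far: `L.out`, a chart of `F₀` at the point by `hO.dom`, `H.out` composed with `w ↦ ph (w.1, w.2)` (continuous at `z` by `L.emb`; `OrdEq.comp_cont`), `L.germ`. Near a
crossing: `cross_germ` (with `L.cross`, `e = sgn m`), and `kap` is constant near `z.1` (`L.kap_cross`), so the function is `ψ (kap (m / (2k)))` of `(rotC _ _).2`: `OrdEq.of_comp`. -/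
theorem Lf.germG (hO : Old B P S F₀) (H : New B P S F₀ G) (L : Lf B F₀ ph k) (z : ℝ × (ℝ × ℝ))
    (h1 : |z.2.1| < 9) (h2 : |z.2.2| < 9) (c' : OpenPartialHomeomorph M₀ ((ℝ × ℝ) × ℝ))
    (hc' : c' ∈ G.charts) (hs : ph ((z.1 : Ci), z.2) ∈ c'.source) :
    OrdEq z (fun w => (c' (ph ((w.1 : Ci), w.2))).2)
      (fun w => L.ψ (L.kap w.1) (rotC (-ang k L.c w.1) w.2).2) := by
  rcases far_or k z.1 with h | ⟨hk, m, hm⟩
  · have h3 : ∀ i, ph ((z.1 : Ci), z.2) ∉ B.N i '' CX := L.out z.1 z.2 h1 h2 h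
    obtain ⟨c₀, hc₀, hs₀⟩ := hO.dom _ h3
    have h4 := H.out _ h3 c' hc' c₀ hc₀ hs hs₀
    have hR : ContinuousAt (fun w : ℝ × (ℝ × ℝ) => ph ((w.1 : Ci), w.2)) z := by
      have h5 : ContinuousOn ph box9 := continuousOn_iff_continuous_domRestrict.2 L.emb.continuous
      have h6 : ContinuousAt ph ((z.1 : Ci), z.2) := h5.continuousAt (Lf_box.mem_nhds ⟨h1, h2⟩)
      have h7 : ContinuousAt (fun w : ℝ × (ℝ × ℝ) => (((w.1 : Ci), w.2) : Cylinder)) z :=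
        (((AddCircle.continuous_mk' (1 : ℝ)).comp continuous_fst).prodMk
          continuous_snd).continuousAt
      exact ContinuousAt.comp (f := fun w : ℝ × (ℝ × ℝ) => (((w.1 : Ci), w.2) : Cylinder))
        (g := ph) h6 h7
    have h8 := OrdEq.comp_cont (R := fun w : ℝ × (ℝ × ℝ) => ph ((w.1 : Ci), w.2)) hR h4
    exact h8.trans (L.germ z h1 h2 h c₀ hc₀ hs₀)
  · refine (cross_germ H hk L.c m (L.σ_one m) rfl L.ρ_pos L.ρ_le (L.cross hk m) hm h1 h2 hc'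
      hs).trans ?_
    refine OrdEq.of_comp (L.ψ (L.kap (m / (2 * k)))) (L.ψ_mono _) ?_
    have h3 : ContinuousAt (fun w : ℝ × (ℝ × ℝ) => |w.1 - m / (2 * k)|) z := by fun_prop
    filter_upwards [h3.eventually_lt_const hm] with w hw
    have h4 := L.kap_cross hk m (w.1 - m / (2 * k)) hw
    rw [add_sub_cancel] at h4
    rw [h4]

/-- all together -/
noncomputable def Lf.gm (hO : Old B P S F₀) (H : New B P S F₀ G) (L : Lf B F₀ ph k) :
    Gm G (⋃ i, B.N i '' KK) ph k where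
  emb := L.emb
  c := L.c
  kap := L.kap
  kap_cont := L.kap_cont
  deg := L.deg
  deg_ne := L.deg_ne
  kap_add := L.kap_add
  ψ := L.ψ
  ψ_cont := L.ψ_cont
  ψ_mono := L.ψ_mono
  ψ_zero := L.ψ_zero
  h₀ := L.h₀
  ψ_add := L.ψ_add
  δ₁ := L.δ₁
  δ₁_pos := L.δ₁_pos
  h_pos := L.h_pos
  h_neg := L.h_neg
  notK z hz := fun h => by
    obtain ⟨i, hi⟩ := mem_iUnion.1 h
    exact L.notK z hz i hi
  germ := L.germG hO H

end Pool.Agent.H.MP_1611f1_gt.PZ
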