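import Pool.Agent.H.MP_1611f1_gt.PD.Cv
import Pool.Agent.H.MP_1611f1_gt.PD.Germ
import Pool.Agent.H.MP_1611f1_gt.PZ.K8

/-!
The ends of the product with the circle.
-/

namespace Pool.Agent.H.MP_1611f1_gt.PZ

open Topology Set Filter
open Pool.Agent.H.MP_1611f1_gt.BR.U (Ci)
open Pool.Agent.H.MP_1611f1_gt.G (Ended MTorus)
open Pool.Agent.H.MP_1611f1_gt.LG (Cylinder)
open Pool.Agent.H.MP_1611f1_gt.PA (PPar VX)
open Pool.Agent.H.MP_1611f1_gt.PD (Design Cv)

variable {S : Type} [TopologicalSpace S] {J A : Type} {D : Design S J A} {M : Type}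
  [TopologicalSpace M] {T : Ended M J} (Mt : MTorus D.E (Homeomorph.refl S) T)

/-- the boxes do not meet the ends. PROOF: `Mt.tor`, `Design.p_eq_iff` (the points in `S` are equal), `D.out`. -/
theorem box_away (i : A) (j : J) (z) : T.tor j z ∉ D.N Mt i '' VX := by
  rintro ⟨v, hv, h⟩
  obtain ⟨θ, r, t⟩ := z
  obtain ⟨t, rfl⟩ := QuotientAddGroup.mk_surjective t
  have h1 : T.tor j (θ, r, (t : Ci)) = Mt.p (D.E.collar j (θ, r), t) := Mt.tor j θ r t
  have h2 : Mt.p (D.w i (v.1, v.2.1), D.tt i + D.sg i * BR.U.cl v.2.2) =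
      Mt.p (D.E.collar j (θ, r), t) := h.trans h1
  exact D.out i _ ((PD.mem_VX v).1 hv) j _ ((D.p_eq_iff Mt _ _ _ _).1 h2).1

/-- the curves do not meet the ends. PROOF: as `box_away`, with `C.out`. -/
theorem cv_away {n : ℕ} {ρ : ℝ} {k : ℕ} (C : Cv D n ρ k) : ∀ z ∈ box9, ∀ j w,
    C.ph Mt z ≠ T.tor j w := by
  rintro z hz j ⟨θ, r, t⟩ h
  obtain ⟨t, rfl⟩ := QuotientAddGroup.mk_surjective t
  have h1 : T.tor j (θ, r, (t : Ci)) = Mt.p (D.E.collar j (θ, r), t) := Mt.tor j θ r t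
  have h2 : Mt.p (C.ν (z.1, z.2.1), C.i / n + ρ * z.2.2) = Mt.p (D.E.collar j (θ, r), t) :=
    h.trans h1
  exact C.out (z.1, z.2.1) hz.1 j _ ((D.p_eq_iff Mt _ _ _ _).1 h2).1

/-- The old foliation near the ends. PROOF: `D.germ_zero` for `q w = (D.E.collar j (w.1, w.2.1), w.2.2)` (`T.cov j w = Mt.p (q w)` by `Mt.tor`; continuous by `D.E.emb`; in `Om`, because it is in `D.Off` by
`D.out`, `KZ ⊆ ZX`; `D.c_end`). -/
theorem F0_end [T2Space S] [Fintype A] (P : A → PPar) {n : ℕ} (hn : 0 < n) (j : J)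
    (z : ℝ × Ioo (1 : ℝ) 2 × ℝ) (c : OpenPartialHomeomorph M ((ℝ × ℝ) × ℝ))
    (hc : c ∈ (D.F0 Mt P hn).charts) (hs : T.cov j z ∈ c.source) :
    OrdEq z (fun w => (c (T.cov j w)).2)
      (fun w => D.col (D.E.collar j ((z.1 : Ci), z.2.1)) * w.2.2) := by
  have hq : Continuous fun w : ℝ × Ioo (1 : ℝ) 2 × ℝ =>
      ((D.E.collar j ((w.1 : Ci), w.2.1), w.2.2) : S × ℝ) := by
    refine ((D.E.emb j).continuous.comp ?_).prodMk (continuous_snd.comp continuous_snd)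
    exact ((AddCircle.continuous_mk' (1 : ℝ)).comp continuous_fst).prodMk
      (continuous_fst.comp continuous_snd)
  have e1 : ∀ w : ℝ × Ioo (1 : ℝ) 2 × ℝ,
      T.cov j w = Mt.p (D.E.collar j ((w.1 : Ci), w.2.1), w.2.2) := fun w => Mt.tor j _ _ _
  rw [e1] at hs
  have h1 := D.germ_zero Mt P hn (hq.continuousAt (x := z)) (Or.inl ?_)
    (fun l => Eventually.of_forall fun w => D.c_end j _ l) hc hs
  · refine h1.congr (Eventually.of_forall fun w => ?_) (Eventually.of_forall fun w => rfl)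
    show (c (T.cov j w)).2 = _
    rw [e1]
  · rintro i ⟨v, hv, h2⟩
    exact D.out i v (PD.KZ_sub hv) j _ h2

end Pool.Agent.H.MP_1611f1_gt.PZ
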