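import Pool.Agent.H.MP_1611f1_gt.LG.Defs
import Pool.Agent.H.MP_1611f1_gt.BR.NCl

/-!
The shear of the ends.
-/

namespace Pool.Agent.H.MP_1611f1_gt.PZ

open Topology Set Filter
open Pool.Agent.H.MP_1611f1_gt.BR.U (Ci)
open Pool.Agent.H.MP_1611f1_gt.G (Ended Linear Detected)

/-- the shear `(θ, r, t) ↦ (θ, r, t + k θ)` -/
def shr (k : ℤ) (w : Ci × Ioo (1 : ℝ) 2 × Ci) : Ci × Ioo (1 : ℝ) 2 × Ci :=
  (w.1, w.2.1, w.2.2 + k • w.1)

theorem shr_shr (k l : ℤ) (h : l = -k) (w : Ci × Ioo (1 : ℝ) 2 × Ci) : shr k (shr l w) = w := by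
  subst h
  simp [shr]

theorem shr_cont (k : ℤ) : Continuous (shr k) := by
  unfold shr
  fun_prop

variable {M : Type*} [TopologicalSpace M] {J : Type*}

/-- the same manifold with sheared collars -/
def shT (k : J → ℤ) (T : Ended M J) : Ended M J where
  tor j w := T.tor j (shr (k j) w)
  emb j := (T.emb j).comp (Homeomorph.isOpenEmbedding
    { toFun := shr (k j)
      invFun := shr (-k j)
      left_inv := fun w => shr_shr _ _ (by simp) w
      right_inv := fun w => shr_shr _ _ rfl w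
      continuous_toFun := shr_cont _
      continuous_invFun := shr_cont _ })
  disj _ _ _ _ h := T.disj _ _ _ _ h

theorem sh_detected {T : Ended M J} {x y : J → ℝ} (k : J → ℤ)
    (h : Detected (shT k T) (fun j => x j + k j * y j) y) : Detected T x y := by
  obtain ⟨F, hF, hl⟩ := h
  refine ⟨F, hF, fun j z hz c hc hs => ?_⟩
  let R : ℝ × Ioo (1 : ℝ) 2 × ℝ → ℝ × Ioo (1 : ℝ) 2 × ℝ := fun w =>
    (w.1, w.2.1, w.2.2 - k j * w.1)
  have hR : Continuous R := by
    simp only [R]
    fun_prop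
  have e1 : ∀ w, (shT k T).cov j (R w) = T.cov j w := by
    rintro ⟨u, r, t⟩
    show T.tor j (shr (k j) _) = T.tor j _
    congr 1
    simp only [R, shr]
    congr 2
    rw [AddCircle.coe_sub]
    have h2 : (((k j : ℝ) * u : ℝ) : Ci) = k j • (u : Ci) := by
      rw [← zsmul_eq_mul, AddCircle.coe_zsmul]
    rw [h2, sub_add_cancel]
  have hs' : (shT k T).cov j (R z) ∈ c.source := by
    rw [e1]
    exact hs
  have h1 := OrdEq.comp_cont (hR.continuousAt (x := z)) (hl j (R z) hz c hc hs')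
  refine h1.congr (Eventually.of_forall fun w => ?_) (Eventually.of_forall fun w => ?_)
  · show (c (T.cov j w)).2 = (c ((shT k T).cov j (R w))).2
    rw [e1]
  · show x j * w.1 + y j * w.2.2 = (x j + k j * y j) * (R w).1 + y j * (R w).2.2
    simp only [R]
    ring

end Pool.Agent.H.MP_1611f1_gt.PZ
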