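import Pool.Agent.H.MP_1611f1_gt.PZ.SdB
import Pool.Agent.H.MP_1611f1_gt.PZ.Asm
import Pool.Agent.H.MP_1611f1_gt.PD.Old
import Pool.Agent.H.MP_1611f1_gt.PA.TaC
import Pool.Agent.H.MP_1611f1_gt.PA.Ex
import Pool.Agent.H.MP_1611f1_gt.HP.Defs
import Pool.Agent.H.MP_1611f1_gt.G.Main

/-!
The theorem on surfaces with two colours.
-/

namespace Pool.Agent.H.MP_1611f1_gt.HP

open Topology Set Filter
open Pool.Agent.H.MP_1611f1_gt.BR.U (Ci)
open Pool.Agent.H.MP_1611f1_gt.G (Ended Linear MTorus Detected Pattern Union glue_taut)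
open Pool.Agent.H.MP_1611f1_gt.LG (Drilled Cylinder)
open Pool.Agent.H.MP_1611f1_gt.PA (PPar)
open Pool.Agent.H.MP_1611f1_gt.PD (Design Cv)
open Pool.Agent.H.MP_1611f1_gt.PZ

section

variable {S : Type} [TopologicalSpace S] [T2Space S] {J A : Type} [Fintype A] {old : J → Prop}
  {D : Design S {j // old j} A} {M₀ : Type} [TopologicalSpace M₀] {T₀ : Ended M₀ {j // old j}}
  {Mt : MTorus D.E (Homeomorph.refl S) T₀} {n : ℕ} {Nb : {j // ¬ old j} → Cylinder → M₀}
  {e : A → {j // ¬ old j}} {C : Set {j // ¬ old j}} {k : {j // ¬ old j} → ℕ}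

open Classical in
/-- the number of turns, as a function of all ends -/
noncomputable def kJ (e : A → {j // ¬ old j}) (C : Set {j // ¬ old j}) (k : {j // ¬ old j} → ℕ)
    (j : J) : ℕ :=
  if h : ¬ old j then if (∀ i, (⟨j, h⟩ : {j // ¬ old j}) ≠ e i) ∧ ⟨j, h⟩ ∉ C then k ⟨j, h⟩ else 0
  else 0

theorem kJ_old {j : J} (h : old j) : kJ e C k j = 0 := by
  unfold kJ
  rw [dif_neg (not_not.2 h)]

theorem kJ_e (i : A) : kJ e C k (e i).1 = 0 := by
  unfold kJ
  rw [dif_pos (e i).2, if_neg]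
  exact fun h => h.1 i rfl

theorem kJ_C {j : {j // ¬ old j}} (h : j ∈ C) : kJ e C k j.1 = 0 := by
  unfold kJ
  rw [dif_pos j.2, if_neg]
  exact fun h' => h'.2 h

theorem kJ_cv {j : {j // ¬ old j}} (h : ∀ i, j ≠ e i) (h' : j ∉ C) : kJ e C k j.1 = k j := by
  unfold kJ
  rw [dif_pos j.2, if_pos ⟨h, h'⟩]

/-- the curves, as curves in `M₀` -/
noncomputable def Curves.toCvs (Q : Curves D Mt n Nb e C k) (P : A → PPar) (hn : 0 < n) :
    Cvs (D.boxes Mt) (D.F0 Mt P hn) T₀ Nb e C (kJ e C k) where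
  away i j z h := box_away Mt i j z (image_mono PA.CX_sub h)
  e_inj := Q.e_inj
  e_notMem := Q.e_notMem
  e_nbh := Q.e_nbh
  k_old j h := kJ_old h
  k_e i := kJ_e i
  k_C j h := kJ_C h
  ph j z := Nb j (z.1, (z.2.1, z.2.2 - 4))
  nbh j h z h1 h2 := by
    show Nb j z = Nb j (z.1, (z.2.1, z.2.2 + 4 - 4))
    rw [add_sub_cancel_right]
  ci := Q.w
  l := Q.l
  ρ := Q.ρ
  ρ_pos := Q.ρ_pos
  ρ_le := Q.ρ_le
  l_mem := Q.l_mem
  C_ph j h := by
    funext z
    rw [Q.C_nbh j h]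
    show _ = D.N Mt (Q.w j) (((1 / 4 + Q.ρ * z.2.2 : ℝ) : Ci), ((Q.l j + Q.ρ * z.2.1 : ℝ) : Ci), z.1)
    congr 5
    show z.2.2 - 4 + 4 = z.2.2
    ring
  lf j h h' := by
    have e1 : (fun z : Cylinder => Nb j (z.1, (z.2.1, z.2.2 - 4))) = (Q.cv j h h').ph Mt := by
      funext z
      rw [Q.cv_nbh j h h']
      show Mt.p (_, _ + Q.ρ * (z.2.2 - 4 + 4)) = Mt.p (_, _ + Q.ρ * z.2.2)
      rw [sub_add_cancel]
    rw [e1, kJ_cv h h']
    exact (Q.cv j h h').toLf Mt P hn Q.ρ_pos Q.ρ_le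
  tube j h z hz i := by
    by_cases h' : j ∈ C
    · have h1 : Nb j (z.1, (z.2.1, z.2.2 - 4)) = wph (D.boxes Mt) (Q.w j) (Q.l j) Q.ρ z := by
        rw [Q.C_nbh j h']
        show D.N Mt (Q.w j) _ = D.N Mt (Q.w j)
          (((1 / 4 + Q.ρ * z.2.2 : ℝ) : Ci), ((Q.l j + Q.ρ * z.2.1 : ℝ) : Ci), z.1)
        congr 5
        show z.2.2 - 4 + 4 = z.2.2
        ring
      rw [h1]
      exact wph_notK8 Q.ρ_pos Q.ρ_le (Q.l_mem j h').1 (Q.l_mem j h').2 z hz i
    · have h1 : Nb j (z.1, (z.2.1, z.2.2 - 4)) = (Q.cv j h h').ph Mt z := by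
        rw [Q.cv_nbh j h h']
        show Mt.p (_, _ + Q.ρ * (z.2.2 - 4 + 4)) = Mt.p (_, _ + Q.ρ * z.2.2)
        rw [sub_add_cancel]
      rw [h1]
      exact ((Q.cv j h h').toLf Mt P hn Q.ρ_pos Q.ρ_le).notK8 z hz i
  ph_away j h z hz m w := by
    by_cases h' : j ∈ C
    · rw [Q.C_nbh j h']
      intro h1
      refine box_away Mt (Q.w j) m w ⟨_, ?_, h1⟩
      have hu := abs_lt.1 hz.1
      have h2 := Q.l_mem j h'
      have h3 := Q.ρ_pos
      left
      show ‖((Q.l j + Q.ρ * z.2.1 : ℝ) : Ci)‖ < 1 / 4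
      have h4 : ‖((Q.l j + Q.ρ * z.2.1 : ℝ) : Ci)‖ ≤ |Q.l j + Q.ρ * z.2.1| := by
        rw [UnitAddCircle.norm_eq]
        have := round_le (Q.l j + Q.ρ * z.2.1) 0
        simpa using this
      refine h4.trans_lt ?_
      rw [abs_lt]
      constructor <;> nlinarith [h2.1, h2.2, hu.1, hu.2]
    · have h1 : Nb j (z.1, (z.2.1, z.2.2 - 4)) = (Q.cv j h h').ph Mt z := by
        rw [Q.cv_nbh j h h']
        show Mt.p (_, _ + Q.ρ * (z.2.2 - 4 + 4)) = Mt.p (_, _ + Q.ρ * z.2.2)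
        rw [sub_add_cancel]
      rw [h1]
      exact cv_away Mt (Q.cv j h h') z hz m w
  ph_disj j m h h' z hz w hw he := by
    refine Q.disj j m h h' (z.1, (z.2.1, z.2.2 - 4)) (w.1, (w.2.1, w.2.2 - 4)) hz.1 ?_ hw.1 ?_ he
    · show |z.2.2 - 4 + 4| < 9
      rw [sub_add_cancel]
      exact hz.2
    · show |w.2.2 - 4 + 4| < 9
      rw [sub_add_cancel]
      exact hw.2

theorem sided_pos [T2Space M₀] [Finite {j // ¬ old j}] {M : Type} [TopologicalSpace M]
    {T : Ended M J} {x y : J → ℝ} (hn : 0 < n) (Q : Curves D Mt n Nb e C k) (Dr : Drilled T₀ Nb T)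
    (hold : ∀ (j : {j // old j}) (z), x j = 0 ∧ 0 < D.col (D.E.collar j z) * y j)
    (he : ∀ i, 0 < x (e i).1 ∧ x (e i).1 + y (e i).1 ≤ 0) (hC : ∀ j ∈ C, x j.1 ≠ 0)
    (hk : ∀ j, (∀ i, j ≠ e i) → j ∉ C → x j.1 + k j * y j.1 ≠ 0) : Detected T x y := by
  have hP : ∀ i, ∃ P : PPar, P.μ = -(y (e i).1 / x (e i).1) := by
    intro i
    refine PA.exists_ppar ?_
    rw [← neg_div, le_div_iff₀ (he i).1]
    linarith [(he i).2]
  choose P hPμ using hP
  have hO := D.old Mt P hn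
  refine pq_detected hO (fun G H y hy => H.up hO hy) (T₀ := T₀) ?_ (Q.toCvs P hn) Dr ?_ ?_
  · intro j z hz c hc hs
    have h1 := F0_end Mt P hn j z c hc hs
    have h2 := hold j ((z.1 : Ci), z.2.1)
    have hcol : D.col (D.E.collar j ((z.1 : Ci), z.2.1)) * D.col (D.E.collar j ((z.1 : Ci), z.2.1)) = 1 := by
      rcases D.col_pm (D.E.collar j ((z.1 : Ci), z.2.1)) with h3 | h3 <;> rw [h3] <;> norm_num
    refine h1.trans (OrdEq.of_comp
      (fun v => D.col (D.E.collar j ((z.1 : Ci), z.2.1)) * y j * v)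
      (fun a b hab => mul_lt_mul_of_pos_left hab h2.2) (Eventually.of_forall fun w => ?_))
    show x j * w.1 + y j * w.2.2 = _
    rw [h2.1]
    linear_combination -(y j * w.2.2) * hcol
  · intro i
    refine ⟨(he i).1, ?_⟩
    rw [hPμ i]
    have := (he i).1.ne'
    field_simp
  · intro j hj
    by_cases h' : j ∈ C
    · rw [kJ_C h']
      simpa using hC j h'
    · rw [kJ_cv hj h']
      exact hk j hj h'

end

theorem Good.detected {M : Type} [TopologicalSpace M] {J : Type} {T : Ended M J} {x y : J → ℝ}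
    (h : Good T x y) : Detected T x y := by
  cases h with
  | sided old D T₀ Mt n hn Nb e C k Q Dr ε hε hold he hC hk =>
    rcases hε with rfl | rfl
    · refine sided_pos hn Q Dr (fun j z => ?_) (fun i => ?_) hC hk
      · simpa only [one_mul] using hold j z
      · simpa only [one_mul] using he i
    · have h1 : Detected T (fun j => -x j) (fun j => -y j) := by
        refine sided_pos hn Q Dr (fun j z => ?_) (fun i => ?_) (fun j hj => ?_) (fun j h h' => ?_)
        · have h2 := hold j z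
          refine ⟨by rw [h2.1, neg_zero], ?_⟩
          have h3 := h2.2
          nlinarith
        · have h2 := he i
          constructor <;> linarith [h2.1, h2.2]
        · exact neg_ne_zero.2 (hC j hj)
        · have h2 := hk j h h'
          intro h3
          exact h2 (by linarith)
      have h2 := h1.neg
      simpa only [neg_neg] using h2
  | fol h => exact h

/-- **Main theorem.** -/
theorem main {V : Type} {M : V → Type} [∀ v, TopologicalSpace (M v)] {J : V → Type}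
    (T : ∀ v, Ended (M v) (J v)) (G : Pattern (Σ v, J v)) {Y : Type} [TopologicalSpace Y]
    (U : Union T G Y) (x y : (Σ v, J v) → ℝ)
    (hgood : ∀ v, Good (T v) (fun j => x ⟨v, j⟩) (fun j => y ⟨v, j⟩))
    (hglue : ∀ e, G.τ e ≠ e → x e = G.al e * x (G.τ e) + G.ga e * y (G.τ e) ∧
      y e = G.be e * x (G.τ e) + G.de e * y (G.τ e))
    (hfill : ∀ e, G.τ e = e → ∃ c : ℝ, c ≠ 0 ∧ x e = c * G.ga e ∧ y e = c * G.de e) :
    ∃ F : Foliation Y, F.Taut :=
  glue_taut T G U x y (fun v => (hgood v).detected) hglue hfill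

end Pool.Agent.H.MP_1611f1_gt.HP
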